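import Pool.Agent.Q279.Col.Defs

set_option autoImplicit false

namespace Q279.Col

open PowerSeries Filter Topology
open scoped PowerSeries.WithPiTopology

variable {k : ℕ}

theorem order_aux (hk : 2 ≤ k) :
    Tendsto (fun i : ℕ ↦ (-(X : ℤ⟦X⟧) ^ k ^ i).order) atTop (𝓝 ⊤) := by
  simp_rw [order_neg, order_X_pow]
  exact ENat.tendsto_natCast_nhds_top.comp (tendsto_pow_atTop_atTop_of_one_lt (by omega))

theorem multipliable_base (hk : 2 ≤ k) : Multipliable fun i : ℕ ↦ (1 : ℤ⟦X⟧) - X ^ k ^ i := by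
  simpa [sub_eq_add_neg] using
    WithPiTopology.multipliable_one_add_of_tendsto_order_atTop_nhds_top ℤ (order_aux hk)

/-- the base product -/
noncomputable def P (k : ℕ) : ℤ⟦X⟧ := ∏' i : ℕ, (1 - X ^ k ^ i)

theorem multipliable_pow (hk : 2 ≤ k) (a : ℕ) :
    Multipliable fun i : ℕ ↦ ((1 : ℤ⟦X⟧) - X ^ k ^ i) ^ a :=
  (multipliable_base hk).pow a

theorem tprod_pow_eq (hk : 2 ≤ k) (a : ℕ) :
    ∏' i : ℕ, ((1 : ℤ⟦X⟧) - X ^ k ^ i) ^ a = P k ^ a :=
  (multipliable_base hk).tprod_pow a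

theorem continuous_expand (hk : k ≠ 0) : Continuous (expand (R := ℤ) k hk) := by
  refine continuous_iff_continuousAt.2 fun f => ?_
  refine (WithPiTopology.tendsto_iff_coeff_tendsto ℤ _ _ _).2 fun d => ?_
  simp_rw [coeff_expand]
  split_ifs
  · exact (WithPiTopology.continuous_coeff ℤ _).tendsto _
  · exact tendsto_const_nhds

theorem P_eq (hk : 2 ≤ k) : P k = (1 - X) * expand k (by omega) (P k) := by
  have h1 : Multipliable fun i : ℕ ↦ (1 : ℤ⟦X⟧) - X ^ k ^ (i + 1) := by
    have h : Tendsto (fun i : ℕ ↦ (-(X : ℤ⟦X⟧) ^ k ^ (i + 1)).order) atTop (𝓝 ⊤) :=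
      (order_aux hk).comp (tendsto_add_atTop_nat 1)
    simpa [sub_eq_add_neg] using
      WithPiTopology.multipliable_one_add_of_tendsto_order_atTop_nhds_top ℤ h
  unfold P
  rw [(multipliable_base hk).map_tprod (expand k (by omega)) (continuous_expand _)]
  rw [tprod_eq_zero_mul' (f := fun i : ℕ ↦ (1 : ℤ⟦X⟧) - X ^ k ^ i) h1]
  simp only [pow_zero, pow_one, map_sub, map_one, map_pow, expand_X]
  congr 1
  refine tprod_congr fun i => ?_
  rw [pow_succ', pow_mul]

theorem constCoeff_P (hk : 2 ≤ k) : constantCoeff (P k) = 1 := by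
  unfold P
  rw [(multipliable_base hk).map_tprod (constantCoeff (R := ℤ))
    (WithPiTopology.continuous_constantCoeff ℤ)]
  have : ∀ i : ℕ, constantCoeff ((1 : ℤ⟦X⟧) - X ^ k ^ i) = 1 := by
    intro i
    have hki : k ^ i ≠ 0 := pow_ne_zero _ (by omega)
    rw [map_sub, map_one, map_pow, constantCoeff_X, zero_pow hki, sub_zero]
  simp [this]

theorem den_eq (hk : 2 ≤ k) (m : ℕ) : den k m = (1 - X) ^ m * P k ^ (m * (k - 1)) := by
  rw [den, tprod_pow_eq hk]

theorem constCoeff_den (hk : 2 ≤ k) (m : ℕ) : constantCoeff (den k m) = 1 := by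
  simp [den_eq hk, constCoeff_P hk]

theorem den_mul_H (hk : 2 ≤ k) (m : ℕ) : den k m * H k m = 1 :=
  mul_invOfUnit _ _ (by simp [constCoeff_den hk])

theorem constCoeff_H (hk : 2 ≤ k) (m : ℕ) : constantCoeff (H k m) = 1 := by
  have := congrArg (constantCoeff (R := ℤ)) (den_mul_H hk m)
  simpa [constCoeff_den hk] using this

theorem S_zero (hk : 2 ≤ k) (m : ℕ) : S k m 0 = 1 := by
  rw [S, coeff_zero_eq_constantCoeff_apply, constCoeff_H hk]

/-- The functional equation. -/
theorem H_feq (hk : 2 ≤ k) (m : ℕ) :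
    (1 - X) ^ (k * m) * H k m = (1 - X ^ k) ^ m * expand k (by omega) (H k m) := by
  have hk0 : k ≠ 0 := by omega
  have h1 := den_mul_H hk m
  have h2 : expand k hk0 (den k m) * expand k hk0 (H k m) = 1 := by
    rw [← map_mul, h1, map_one]
  have h3 : (1 - X ^ k) ^ m * den k m = (1 - X) ^ (k * m) * expand k hk0 (den k m) := by
    rw [den_eq hk]
    have hP := P_eq hk
    simp only [map_mul, map_pow, map_sub, map_one, expand_X]
    obtain ⟨j, rfl⟩ : ∃ j, k = j + 1 := ⟨k - 1, by omega⟩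
    simp only [Nat.add_sub_cancel]
    nth_rewrite 1 [hP]
    rw [mul_pow]
    ring
  calc (1 - X) ^ (k * m) * H k m
      = ((1 - X) ^ (k * m) * expand k hk0 (den k m)) * H k m * expand k hk0 (H k m) := by
        linear_combination (-(1 - X) ^ (k * m) * H k m) * h2
    _ = (1 - X ^ k) ^ m * (den k m * H k m) * expand k hk0 (H k m) := by rw [← h3]; ring
    _ = _ := by rw [h1, mul_one]

theorem H_add (hk : 2 ≤ k) (m n : ℕ) : H k (m + n) = H k m * H k n := by
  have h1 := den_mul_H hk m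
  have h2 := den_mul_H hk n
  have h3 := den_mul_H hk (m + n)
  have h4 : den k (m + n) = den k m * den k n := by
    rw [den_eq hk, den_eq hk, den_eq hk]; ring
  calc H k (m + n) = (den k m * H k m) * (den k n * H k n) * H k (m + n) := by rw [h1, h2]; ring
    _ = H k m * H k n * (den k (m + n) * H k (m + n)) := by rw [h4]; ring
    _ = _ := by rw [h3, mul_one]

theorem H_mul (hk : 2 ≤ k) (m n : ℕ) : H k (m * n) = H k m ^ n := by
  induction n with
  | zero =>
    have h := den_mul_H hk 0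
    rw [den_eq hk] at h
    simpa using h
  | succ n ih => rw [Nat.mul_succ, H_add hk, ih, pow_succ]

end Q279.Col
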