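import Pool.Agent.Q279.Col.TwoEven

set_option autoImplicit false

/-! The case `k = 2`, `m` odd. -/

namespace Q279.Col.Two

open PowerSeries Q279.Col

theorem constCoeff_w : constantCoeff w = 1 := by
  rw [← coeff_zero_eq_constantCoeff_apply]; simp [w]

theorem constCoeff_V : constantCoeff V = 0 := by
  unfold V; simp [constCoeff_w]

theorem iterate_pow2_mul (e r : ℕ) (f : ℤ⟦X⟧) :
    (Uop 2)^[r] (2 ^ e * f) = 2 ^ e * (Uop 2)^[r] f := by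
  induction r generalizing f with
  | zero => rfl
  | succ r ih =>
    rw [Function.iterate_succ_apply, Function.iterate_succ_apply, ← ih]
    exact congrArg _ (U_pow2_mul e f)

/-- iteration on `F * (V g)` -/
theorem iterate_V (m r : ℕ) {g : ℤ⟦X⟧} (hg : g ∈ Rw) :
    ∃ h ∈ Rw, (Uop 2)^[r] (H 2 m * (V * g)) = H 2 m * (2 ^ r * (V * h)) := by
  induction r with
  | zero => exact ⟨g, hg, by simp⟩
  | succ r ih =>
    obtain ⟨h, hh, e⟩ := ih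
    obtain ⟨h', hh', e'⟩ := U_V_mul (mul_mem (pow_mem w_mem m) hh)
    refine ⟨h', hh', ?_⟩
    rw [Function.iterate_succ_apply', e]
    change U (H 2 m * (2 ^ r * (V * h))) = _
    rw [U_F_mul, show w ^ m * (2 ^ r * (V * h)) = 2 ^ r * (V * (w ^ m * h)) by ring, U_pow2_mul, e']
    ring

/-- coefficients of `U^r (F * (2^e V g))` -/
theorem dvd_coeff_V (m r e n : ℕ) {g : ℤ⟦X⟧} (hg : g ∈ Rw) :
    (2 : ℤ) ^ (r + e + 2) ∣ coeff n ((Uop 2)^[r] (H 2 m * (2 ^ e * (V * g)))) := by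
  obtain ⟨h, _, eq⟩ := iterate_V m r hg
  rw [show H 2 m * (2 ^ e * (V * g)) = 2 ^ e * (H 2 m * (V * g)) by ring, iterate_pow2_mul, eq,
    V_eq,
    show 2 ^ e * (H 2 m * (2 ^ r * (4 * v * h))) = 2 ^ (r + e + 2) * (H 2 m * (v * h)) by ring,
    coeff_pow2_mul]
  exact Dvd.intro _ rfl

/-- `U (V g) = 2 V h` inside `ℤ[V]` -/
theorem U_V_mul_RV {g : ℤ⟦X⟧} (hg : g ∈ RV) : ∃ h ∈ RV, U (V * g) = 2 * (V * h) := by
  obtain ⟨c, g1, hg1, rfl⟩ := RV_decomp hg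
  refine ⟨c + 2 * U ((1 + V) * g1), add_mem (intCast_mem' _ c)
    (mul_mem (ofNat_mem _ 2) (U_mem_RV (mul_mem one_add_V_mem hg1))), ?_⟩
  rw [show V * ((c : ℤ⟦X⟧) + V * g1) = (c : ℤ⟦X⟧) * V + V ^ 2 * g1 by ring, map_add, U_int_mul, U_V,
    U_V_sq_mul]
  ring

/-- `U (w f) ∈ w ℤ[V]` for `f ∈ ℤ[V]` -/
theorem U_w_mul {f : ℤ⟦X⟧} (hf : f ∈ RV) : ∃ h ∈ RV, U (w * f) = w * h := by
  refine adjoin_induction_pow (fun f => ∃ h ∈ RV, U (w * f) = w * h) ?_ ?_ ?_ hf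
  · rintro f g ⟨f1, h1, e1⟩ ⟨g1, h2, e2⟩
    exact ⟨f1 + g1, add_mem h1 h2, by rw [mul_add, map_add, e1, e2]; ring⟩
  · rintro c f ⟨f1, h1, e1⟩
    exact ⟨c * f1, mul_mem (intCast_mem' _ c) h1, by
      rw [show w * ((c : ℤ⟦X⟧) * f) = (c : ℤ⟦X⟧) * (w * f) by ring, U_int_mul, e1]; ring⟩
  · intro n
    induction n using Nat.strong_induction_on with
    | _ n ih =>
      rcases n with _ | _ | n
      · exact ⟨1, one_mem _, by rw [pow_zero, mul_one, U_w]⟩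
      · exact ⟨4 * V, mul_mem (ofNat_mem _ 4) V_mem, by rw [zero_add, pow_one, U_wV]; ring⟩
      · obtain ⟨h1, hm1, e1⟩ := ih (n + 1) (by omega)
        obtain ⟨h2, hm2, e2⟩ := ih n (by omega)
        refine ⟨4 * V * (h2 + h1), mul_mem (mul_mem (ofNat_mem _ 4) V_mem) (add_mem hm2 hm1), ?_⟩
        rw [show w * V ^ (n + 1 + 1) = V ^ 2 * (w * V ^ n) by ring, U_V_sq_mul,
          show (1 + V) * (w * V ^ n) = w * V ^ n + w * V ^ (n + 1) by ring, map_add, e1, e2]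
        ring

/-- `U (w V f) ∈ 4 w V ℤ[V]` for `f ∈ ℤ[V]` -/
theorem U_wV_mul {f : ℤ⟦X⟧} (hf : f ∈ RV) : ∃ h ∈ RV, U (w * (V * f)) = 4 * (w * (V * h)) := by
  obtain ⟨c, g1, hg1, rfl⟩ := RV_decomp hf
  obtain ⟨h, hh, e⟩ := U_w_mul (mul_mem one_add_V_mem hg1)
  refine ⟨c + h, add_mem (intCast_mem' _ c) hh, ?_⟩
  rw [show w * (V * ((c : ℤ⟦X⟧) + V * g1)) = (c : ℤ⟦X⟧) * (w * V) + V ^ 2 * (w * g1) by ring,
    map_add, U_int_mul, U_wV, U_V_sq_mul, show (1 + V) * (w * g1) = w * ((1 + V) * g1) by ring, e]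
  ring

theorem w_pow_odd (i : ℕ) : w ^ (2 * i + 1) = w * (1 + V) ^ i := by
  rw [pow_succ, w_pow_two_mul]; ring

theorem t_add_four (j : ℕ) : t w (j + 4) = (2 + 4 * V) * t w (j + 2) - t w j := by
  rw [show j + 4 = (j + 2) + 2 by ring, t_add_two, show j + 2 + 1 = (j + 1) + 2 by ring, t_add_two,
    show j + 1 + 1 = j + 2 by ring]
  have h := t_add_two w j
  unfold V
  linear_combination h

/-- `T_{2i+1}(w) = w O_i(V)`, with `O_i = 1 + 2 i (i+1) V + 16 V^2 R`. -/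
theorem exists_O (i : ℕ) : ∃ R ∈ RV,
    t w (2 * i + 1) = w * (1 + ((2 * (i : ℤ) * (i + 1) : ℤ) : ℤ⟦X⟧) * V + 16 * (V ^ 2 * R)) := by
  induction i using Nat.strong_induction_on with
  | _ i ih =>
    rcases i with _ | _ | i
    · exact ⟨0, zero_mem _, by rw [mul_zero, zero_add, t_one]; push_cast; ring⟩
    · refine ⟨0, zero_mem _, ?_⟩
      rw [show 2 * (0 + 1) + 1 = 1 + 2 by ring, t_add_two, t_two, t_one]
      unfold V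
      push_cast
      ring
    · obtain ⟨R, hR, h1⟩ := ih i (by omega)
      obtain ⟨R', hR', h2⟩ := ih (i + 1) (by omega)
      obtain ⟨c, hc⟩ : ∃ c : ℤ, ((i : ℤ) + 1) * (i + 2) = 2 * c := by
        rcases Int.even_or_odd' (i : ℤ) with ⟨d, hd | hd⟩
        · exact ⟨((i : ℤ) + 1) * (d + 1), by rw [hd]; ring⟩
        · exact ⟨(d + 1) * (i + 2), by rw [hd]; ring⟩
      have hc' : ((i : ℤ⟦X⟧) + 1) * (i + 2) = 2 * (c : ℤ⟦X⟧) := by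
        have := congrArg (fun z : ℤ => (z : ℤ⟦X⟧)) hc
        push_cast at this
        exact this
      refine ⟨c + (2 + 4 * V) * R' - R, sub_mem (add_mem (intCast_mem' _ c)
        (mul_mem (add_mem (ofNat_mem _ 2) (mul_mem (ofNat_mem _ 4) V_mem)) hR')) hR, ?_⟩
      rw [show 2 * (i + 1 + 1) + 1 = (2 * i + 1) + 4 by ring, t_add_four,
        show 2 * i + 1 + 2 = 2 * (i + 1) + 1 by ring, h1, h2]
      push_cast
      linear_combination (8 * w * V ^ 2) * hc'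

/-- the series `K` with `U^2 F - F = F K`, for odd `m = 2i+1` -/
noncomputable def K (i : ℕ) : ℤ⟦X⟧ := U (w ^ (2 * i + 1) * t w (2 * i + 1)) - 1

theorem UU_sub (i : ℕ) : U (U (H 2 (2 * i + 1))) - H 2 (2 * i + 1) = H 2 (2 * i + 1) * K i := by
  have hG : U (H 2 (2 * i + 1)) = H 2 (2 * i + 1) * t w (2 * i + 1) := by
    have := U_F_mul (2 * i + 1) 1
    rw [mul_one, mul_one, U_w_pow] at this
    exact this
  rw [hG, U_F_mul, K]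
  ring

/-- `D m n = c_m(4n) - c_m(n)` as a coefficient -/
theorem D_eq (i n' r : ℕ) :
    S 2 (2 * i + 1) (4 * (2 ^ r * n')) - S 2 (2 * i + 1) (2 ^ r * n') =
      coeff n' ((Uop 2)^[r] (H 2 (2 * i + 1) * K i)) := by
  rw [← UU_sub, coeff_iterate_Uop, map_sub, coeff_Uop, coeff_Uop, S, S]
  congr 3
  ring

/-- `K = (T_{2(i+1)} - 1) + U (w^{2(i+1)} (O_i - 1))` -/
theorem K_eq (i : ℕ) {O : ℤ⟦X⟧} (h : t w (2 * i + 1) = w * (1 + O)) :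
    K i = (t (1 + 2 * V) (i + 1) - 1) + U (w ^ (2 * (i + 1)) * O) := by
  unfold K
  rw [h, show w ^ (2 * i + 1) * (w * (1 + O)) = w ^ (2 * (i + 1)) + w ^ (2 * (i + 1)) * O by ring,
    map_add, U_w_pow, t_w_two_mul]
  ring

/-- `V`-multiple form -/
theorem good_V {e : ℕ} {f : ℤ⟦X⟧} (h : Good e f) : ∃ g ∈ RV, f = 2 ^ e * (V * g) := by
  obtain ⟨a, Q, hQ, _, rfl⟩ := h
  exact ⟨a + V * Q, add_mem (intCast_mem' _ a) (mul_mem V_mem hQ), by ring⟩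

/-- image of a `V`-multiple under `U (w^{2j} ·)` -/
theorem U_w_even_V (j e : ℕ) {g : ℤ⟦X⟧} (hg : g ∈ RV) :
    ∃ h ∈ RV, U (w ^ (2 * j) * (2 ^ e * (V * g))) = 2 ^ (e + 1) * (V * h) := by
  obtain ⟨h, hh, eq⟩ := U_V_mul_RV (mul_mem (pow_mem one_add_V_mem j) hg)
  refine ⟨h, hh, ?_⟩
  rw [w_pow_two_mul, show (1 + V) ^ j * (2 ^ e * (V * g)) = 2 ^ e * (V * ((1 + V) ^ j * g)) by ring,
    U_pow2_mul, eq]
  ring

/-- `m = 4k+1`: `K` is good of exponent `1`. -/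
theorem K_one (k : ℕ) : Good 1 (K (2 * k)) := by
  obtain ⟨R, hR, h⟩ := exists_O (2 * k)
  rw [K_eq (2 * k) (O := ((2 * ((2 * k : ℕ) : ℤ) * ((2 * k : ℕ) + 1) : ℤ) : ℤ⟦X⟧) * V
    + 16 * (V ^ 2 * R)) (by rw [h]; ring)]
  have h1 := good_t (2 * k + 1) (by omega)
  rw [padicValNat.eq_zero_of_not_dvd (by omega), mul_zero, zero_add] at h1
  obtain ⟨a, Q, hQ, ha, e1⟩ := h1
  obtain ⟨g, hg, e2⟩ := U_w_even_V (2 * k + 1) 2 (g := ((k * (2 * k + 1) : ℤ) : ℤ⟦X⟧) + 4 * (V * R))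
    (add_mem (intCast_mem' _ _) (mul_mem (ofNat_mem _ 4) (mul_mem V_mem hR)))
  rw [e1, show ((2 * ((2 * k : ℕ) : ℤ) * ((2 * k : ℕ) + 1) : ℤ) : ℤ⟦X⟧) * V + 16 * (V ^ 2 * R) =
    2 ^ 2 * (V * (((k * (2 * k + 1) : ℤ) : ℤ⟦X⟧) + 4 * (V * R))) by push_cast; ring, e2]
  obtain ⟨c, g1, hg1, rfl⟩ := RV_decomp hg
  refine ⟨a + 4 * c, Q + 4 * g1, add_mem hQ (mul_mem (ofNat_mem _ 4) hg1), by omega, ?_⟩
  push_cast
  ring

/-- `m = 4k+3`, `k ≡ 3 mod 4`: `K ∈ 32 V ℤ[V]`. -/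
theorem K_fifteen (k : ℕ) (hk : k % 4 = 3) : ∃ g ∈ RV, K (2 * k + 1) = 2 ^ 5 * (V * g) := by
  obtain ⟨u, rfl⟩ : ∃ u, k = 4 * u + 3 := ⟨k / 4, by omega⟩
  obtain ⟨R, hR, h⟩ := exists_O (2 * (4 * u + 3) + 1)
  rw [K_eq _ (O := ((2 * ((2 * (4 * u + 3) + 1 : ℕ) : ℤ) * ((2 * (4 * u + 3) + 1 : ℕ) + 1) : ℤ) :
    ℤ⟦X⟧) * V + 16 * (V ^ 2 * R)) (by rw [h]; ring)]
  obtain ⟨g, hg, e2⟩ := U_w_even_V (2 * (4 * u + 3) + 1 + 1) 4
    (g := (((8 * u + 7) * (u + 1) : ℤ) : ℤ⟦X⟧) + V * R)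
    (add_mem (intCast_mem' _ _) (mul_mem V_mem hR))
  rw [show ((2 * ((2 * (4 * u + 3) + 1 : ℕ) : ℤ) * ((2 * (4 * u + 3) + 1 : ℕ) + 1) : ℤ) :
    ℤ⟦X⟧) * V + 16 * (V ^ 2 * R) =
    2 ^ 4 * (V * ((((8 * u + 7) * (u + 1) : ℤ) : ℤ⟦X⟧) + V * R)) by push_cast; ring, e2]
  obtain ⟨g', hg', e3⟩ := good_V (good_t (2 * (4 * u + 3) + 1 + 1) (by omega))
  have h4 : ∃ s, padicValNat 2 (2 * (4 * u + 3) + 1 + 1) = s + 3 := by
    rw [show 2 * (4 * u + 3) + 1 + 1 = 2 ^ 3 * (u + 1) by ring,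
      padicValNat.mul (by norm_num) (by omega), padicValNat.prime_pow]
    exact ⟨_, add_comm _ _⟩
  obtain ⟨s, hs⟩ := h4
  rw [e3, hs]
  refine ⟨2 ^ (2 * s + 2) * g' + g, add_mem (mul_mem (pow_mem (ofNat_mem _ 2) _) hg') hg, ?_⟩
  ring

/-- `m = 4k+3`, `k ≡ 1 mod 4`: `K` is good of exponent `4`. -/
theorem K_seven (k : ℕ) (hk : k % 4 = 1) : Good 4 (K (2 * k + 1)) := by
  obtain ⟨u, rfl⟩ : ∃ u, k = 4 * u + 1 := ⟨k / 4, by omega⟩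
  obtain ⟨R, hR, h⟩ := exists_O (2 * (4 * u + 1) + 1)
  rw [K_eq _ (O := ((2 * ((2 * (4 * u + 1) + 1 : ℕ) : ℤ) * ((2 * (4 * u + 1) + 1 : ℕ) + 1) : ℤ) :
    ℤ⟦X⟧) * V + 16 * (V ^ 2 * R)) (by rw [h]; ring)]
  have h1 : Good 3 (((2 * ((2 * (4 * u + 1) + 1 : ℕ) : ℤ) * ((2 * (4 * u + 1) + 1 : ℕ) + 1) : ℤ) :
      ℤ⟦X⟧) * V + 16 * (V ^ 2 * R)) := by
    refine ⟨(8 * u + 3) * (2 * u + 1), 2 * R, mul_mem (ofNat_mem _ 2) hR, ?_, ?_⟩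
    · rw [show (8 * (u : ℤ) + 3) * (2 * u + 1) = 2 * (8 * u * u + 7 * u + 1) + 1 by ring]
      omega
    · push_cast
      ring
  have h2 := good_step (2 * (4 * u + 1) + 1 + 1) h1
  obtain ⟨g', hg', e3⟩ := good_V (good_t (2 * (4 * u + 1) + 1 + 1) (by omega))
  have h4 : ∃ s, padicValNat 2 (2 * (4 * u + 1) + 1 + 1) = s + 2 := by
    rw [show 2 * (4 * u + 1) + 1 + 1 = 2 ^ 2 * (2 * u + 1) by ring,
      padicValNat.mul (by norm_num) (by omega), padicValNat.prime_pow]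
    exact ⟨_, add_comm _ _⟩
  obtain ⟨s, hs⟩ := h4
  obtain ⟨a, Q, hQ, ha, e5⟩ := h2
  rw [e3, e5, hs]
  obtain ⟨c, g1, hg1, rfl⟩ := RV_decomp hg'
  refine ⟨a + 2 * (2 ^ (2 * s) * c), Q + 2 * 2 ^ (2 * s) * g1, add_mem hQ (mul_mem (mul_mem
    (ofNat_mem _ 2) (pow_mem (ofNat_mem _ 2) _)) hg1), by omega, ?_⟩
  push_cast
  ring

theorem t_V_expand' (k : ℕ) :
    ∃ c : ℤ, ∃ Q ∈ RV, t (1 + 2 * V) k =
      1 + 2 * ((k : ℤ) : ℤ⟦X⟧) ^ 2 * V + 2 * V ^ 2 * (2 * (c : ℤ⟦X⟧) + V * Q) := by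
  induction k using Nat.strong_induction_on with
  | _ k ih =>
    rcases k with _ | _ | k
    · exact ⟨0, 0, zero_mem _, by rw [t_zero]; push_cast; ring⟩
    · exact ⟨0, 0, zero_mem _, by rw [zero_add, t_one]; push_cast; ring⟩
    · obtain ⟨c, Q, hQ, h1⟩ := ih k (by omega)
      obtain ⟨c', Q', hQ', h2⟩ := ih (k + 1) (by omega)
      refine ⟨2 * ((k : ℤ) + 1) ^ 2 + 2 * c' - c, 2 * Q' + 4 * (2 * c' + V * Q') - Q, ?_, ?_⟩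
      · exact sub_mem (add_mem (mul_mem (ofNat_mem _ 2) hQ') (mul_mem (ofNat_mem _ 4)
          (add_mem (mul_mem (ofNat_mem _ 2) (intCast_mem' _ c')) (mul_mem V_mem hQ')))) hQ
      · rw [show k + 1 + 1 = k + 2 by ring, t_add_two, h1, h2]
        push_cast
        ring

/-- `m = 4k+3`, `k` even: `K = 8 (2α V + V^2 Q)` with `Q` odd at `V = 0`. -/
theorem K_three (k : ℕ) (hk : k % 2 = 0) : ∃ α c : ℤ, ∃ Q ∈ RV, c % 2 = 1 ∧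
    K (2 * k + 1) = 8 * (2 * (α : ℤ⟦X⟧) * V + V ^ 2 * ((c : ℤ⟦X⟧) + V * Q)) := by
  obtain ⟨u, rfl⟩ : ∃ u, k = 2 * u := ⟨k / 2, by omega⟩
  obtain ⟨R, hR, h⟩ := exists_O (2 * (2 * u) + 1)
  rw [K_eq _ (O := ((2 * ((2 * (2 * u) + 1 : ℕ) : ℤ) * ((2 * (2 * u) + 1 : ℕ) + 1) : ℤ) :
    ℤ⟦X⟧) * V + 16 * (V ^ 2 * R)) (by rw [h]; ring)]
  -- first part
  have hA : ∃ a c : ℤ, ∃ Q ∈ RV, a % 2 = 1 ∧ c % 2 = 1 ∧ t (1 + 2 * V) (2 * (2 * u) + 1 + 1) - 1 =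
      8 * ((a : ℤ⟦X⟧) * V + V ^ 2 * ((c : ℤ⟦X⟧) + V * Q)) := by
    obtain ⟨c, Q, hQ, e⟩ := t_V_expand' (2 * u + 1)
    have h2 : t (1 + 2 * V) (2 * (2 * u) + 1 + 1) = 2 * (t (1 + 2 * V) (2 * u + 1)) ^ 2 - 1 := by
      rw [show 2 * (2 * u) + 1 + 1 = 2 * (2 * u + 1) by ring, t_mul, t_two]
    set l : ℤ := ((2 * u + 1 : ℕ) : ℤ) with hl
    have hlo : l % 2 = 1 := by omega
    have hl2 : l ^ 2 % 2 = 1 := by
      rw [pow_two, Int.mul_emod, hlo]; rfl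
    have hl4 : (l ^ 2) ^ 2 % 2 = 1 := by
      rw [pow_two, Int.mul_emod, hl2]; rfl
    refine ⟨l ^ 2, 2 * c + (l ^ 2) ^ 2, Q + 2 * ((l ^ 2 : ℤ) : ℤ⟦X⟧) * (2 * c + V * Q) +
      V * (2 * c + V * Q) ^ 2, ?_, hl2, by omega, ?_⟩
    · have hm : (2 * (c : ℤ⟦X⟧) + V * Q) ∈ RV :=
        add_mem (mul_mem (ofNat_mem _ 2) (intCast_mem' _ c)) (mul_mem V_mem hQ)
      exact add_mem (add_mem hQ (mul_mem (mul_mem (ofNat_mem _ 2) (intCast_mem' _ _)) hm))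
        (mul_mem V_mem (pow_mem hm 2))
    · rw [h2, e]
      push_cast
      ring
  -- second part
  have hB : ∃ b : ℤ, ∃ Q ∈ RV, b % 2 = 1 ∧ U (w ^ (2 * (2 * (2 * u) + 1 + 1)) *
      (((2 * ((2 * (2 * u) + 1 : ℕ) : ℤ) * ((2 * (2 * u) + 1 : ℕ) + 1) : ℤ) : ℤ⟦X⟧) * V
        + 16 * (V ^ 2 * R))) = 8 * ((b : ℤ⟦X⟧) * V + 2 * (V ^ 2 * Q)) := by
    obtain ⟨R2, hR2, e2⟩ := one_add_V_pow (2 * (2 * u) + 1 + 1)
    set b : ℤ := (4 * u + 1) * (2 * u + 1) with hb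
    have hbo : b % 2 = 1 := by
      rw [hb, show (4 * (u : ℤ) + 1) * (2 * u + 1) = 2 * (4 * u * u + 3 * u) + 1 by ring]
      omega
    set S := (b : ℤ⟦X⟧) * R2 + 4 * ((1 + V) ^ (2 * (2 * u) + 1 + 1) * R) with hS
    have hSm : S ∈ RV := add_mem (mul_mem (intCast_mem' _ b) hR2)
      (mul_mem (ofNat_mem _ 4) (mul_mem (pow_mem one_add_V_mem _) hR))
    have e3 : w ^ (2 * (2 * (2 * u) + 1 + 1)) *
      (((2 * ((2 * (2 * u) + 1 : ℕ) : ℤ) * ((2 * (2 * u) + 1 : ℕ) + 1) : ℤ) : ℤ⟦X⟧) * V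
        + 16 * (V ^ 2 * R)) = 4 * ((b : ℤ⟦X⟧) * V + V ^ 2 * S) := by
      rw [w_pow_two_mul]
      have hcast : (((2 * ((2 * (2 * u) + 1 : ℕ) : ℤ) * ((2 * (2 * u) + 1 : ℕ) + 1) : ℤ)) : ℤ⟦X⟧) =
          4 * (b : ℤ⟦X⟧) := by rw [hb]; push_cast; ring
      rw [hcast, hS]
      linear_combination (4 * (b : ℤ⟦X⟧) * V) * e2
    rw [e3, U_ofNat4, map_add, U_int_mul, U_V, U_V_sq_mul]
    obtain ⟨c, W, hW, hc⟩ := RV_decomp (U_mem_RV (mul_mem one_add_V_mem hSm))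
    rw [hc]
    refine ⟨b + 2 * c, W, hW, by omega, ?_⟩
    push_cast
    ring
  obtain ⟨a, c, Q, hQ, ha, hc, e1⟩ := hA
  obtain ⟨b, Q', hQ', hb, e2⟩ := hB
  rw [e1, e2]
  obtain ⟨c', g, hg, rfl⟩ := RV_decomp hQ'
  obtain ⟨α, hα⟩ : ∃ α, a + b = 2 * α := ⟨(a + b) / 2, by omega⟩
  refine ⟨α, c + 2 * c', Q + 2 * g, add_mem hQ (mul_mem (ofNat_mem _ 2) hg), by omega, ?_⟩
  have hα' : (a : ℤ⟦X⟧) + b = 2 * α := by
    have := congrArg (fun z : ℤ => (z : ℤ⟦X⟧)) hα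
    push_cast at this
    exact this
  push_cast
  linear_combination (8 * V) * hα'

end Q279.Col.Two
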