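import Pool.Agent.Q279.Col.BinDefs
import Pool.Agent.Q279.Col.TwoOdd

set_option autoImplicit false

/-! Congruences for `b_{2^m}`. -/

namespace Q279.Col.Bin

open PowerSeries Q279.Col Q279.Col.Two

theorem denB_eq (m : ℕ) : den 2 m = (1 - X) ^ m * denB m := by
  rw [den, denB]
  norm_num

theorem constCoeff_denB (m : ℕ) : constantCoeff (denB m) = 1 := by
  have h := congrArg (constantCoeff (R := ℤ)) (denB_eq m)
  rw [constCoeff_den (by norm_num)] at h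
  simpa using h.symm

theorem denB_mul (m : ℕ) : denB m * BM m = 1 := mul_invOfUnit _ _ (by simp [constCoeff_denB])

theorem BM_eq (m : ℕ) : BM m = (1 - X) ^ m * H 2 m := by
  have h1 := denB_mul m
  have h2 := den_mul_H (k := 2) (by norm_num) m
  rw [denB_eq] at h2
  calc BM m = BM m * ((1 - X) ^ m * denB m * H 2 m) := by rw [h2, mul_one]
    _ = (denB m * BM m) * ((1 - X) ^ m * H 2 m) := by ring
    _ = _ := by rw [h1, one_mul]

/-- `w^{-1} = (1 - x) / (1 + x)` -/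
noncomputable def wi : ℤ⟦X⟧ := mk fun n => if n = 0 then 1 else 2 * (-1) ^ n

theorem wi_eq : (1 + X) * wi = 1 - X := by
  ext n
  rw [add_mul, one_mul, map_add, map_sub, coeff_one, coeff_X]
  rcases n with _ | n
  · simp [wi]
  · rw [coeff_succ_X_mul]
    rcases n with _ | n
    · simp [wi]
    · simp only [wi, coeff_mk]
      rw [if_neg (by omega), if_neg (by omega), if_neg (by omega), if_neg (by omega)]
      ring

theorem w_mul_wi : w * wi = 1 := by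
  have h1 := w_eq
  have h2 := wi_eq
  refine mul_left_cancel₀ one_sub_X_ne ?_
  linear_combination wi * h1 + h2

theorem U_wi : U wi = w := by
  ext n
  simp only [coeff_Uop, wi, w, coeff_mk]
  rcases n with _ | n
  · simp
  · rw [if_neg (by omega), if_neg (by omega), pow_mul]
    norm_num

theorem U_wi_pow (j : ℕ) : U (wi ^ j) = t w j := by
  have h := w_mul_wi
  induction j using Nat.strong_induction_on with
  | _ j ih =>
    rcases j with _ | _ | j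
    · rw [pow_zero, U_one, t_zero]
    · rw [zero_add, pow_one, U_wi, t_one]
    · have h1 := U_rec (wi ^ (j + 2))
      have e1 : w ^ 2 * wi ^ (j + 2) = wi ^ j := by
        rw [show w ^ 2 * wi ^ (j + 2) = (w * wi) ^ 2 * wi ^ j by ring, h]; ring
      have e2 : w * wi ^ (j + 2) = wi ^ (j + 1) := by
        rw [show w * wi ^ (j + 2) = (w * wi) * wi ^ (j + 1) by ring, h]; ring
      rw [e1, e2, ih j (by omega), ih (j + 1) (by omega)] at h1
      rw [show j + 1 + 1 = j + 2 by ring, t_add_two]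
      linear_combination h1

/-- `ℤ[w, w^{-1}]` -/
noncomputable abbrev Rl : Subalgebra ℤ ℤ⟦X⟧ := Algebra.adjoin ℤ {w, wi}

theorem w_mem_Rl : w ∈ Rl := Algebra.subset_adjoin (by simp)
theorem wi_mem_Rl : wi ∈ Rl := Algebra.subset_adjoin (by simp)

theorem Rw_le_Rl : Rw ≤ Rl := Algebra.adjoin_mono (by simp)

theorem V_mem_Rl : V ∈ Rl := sub_mem (pow_mem w_mem_Rl 2) (one_mem _)

/-- to prove an additive statement on `ℤ[w, w^{-1}]` it is enough to treat `w^{-j} g`,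
`g ∈ ℤ[w]` -/
theorem Rl_form {f : ℤ⟦X⟧} (hf : f ∈ Rl) : ∃ j : ℕ, ∃ g ∈ Rw, f = wi ^ j * g := by
  have h := w_mul_wi
  have hp : ∀ k, w ^ k * wi ^ k = 1 := fun k => by rw [← mul_pow, h, one_pow]
  refine Algebra.adjoin_induction (p := fun f _ => ∃ j : ℕ, ∃ g ∈ Rw, f = wi ^ j * g)
    ?_ ?_ ?_ ?_ hf
  · intro x hx
    simp only [Set.mem_insert_iff, Set.mem_singleton_iff] at hx
    rcases hx with rfl | rfl
    · exact ⟨0, w, w_mem, by simp⟩
    · exact ⟨1, 1, one_mem _, by simp⟩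
  · intro c
    exact ⟨0, algebraMap ℤ ℤ⟦X⟧ c, algebraMap_mem _ c, by simp⟩
  · rintro x y _ _ ⟨i, g, hg, rfl⟩ ⟨j, g', hg', rfl⟩
    refine ⟨i + j, w ^ j * g + w ^ i * g', add_mem (mul_mem (pow_mem w_mem _) hg)
      (mul_mem (pow_mem w_mem _) hg'), ?_⟩
    linear_combination (-(wi ^ i * g)) * hp j + (-(wi ^ j * g')) * hp i
  · rintro x y _ _ ⟨i, g, hg, rfl⟩ ⟨j, g', hg', rfl⟩
    exact ⟨i + j, g * g', mul_mem hg hg', by ring⟩

/-- `U (w^{-j} g) ∈ ℤ[w]` -/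
theorem U_mem_of_Rl {f : ℤ⟦X⟧} (hf : f ∈ Rl) : U f ∈ Rw := by
  obtain ⟨j, g, hg, rfl⟩ := Rl_form hf
  have h := w_mul_wi
  have key : ∀ n : ℕ, U (wi ^ j * w ^ n) ∈ Rw := by
    intro n
    rcases le_total j n with hjn | hjn
    · obtain ⟨k, rfl⟩ := Nat.exists_eq_add_of_le hjn
      rw [show wi ^ j * w ^ (j + k) = (w * wi) ^ j * w ^ k by ring, h, one_pow, one_mul]
      exact U_mem_Rw (pow_mem w_mem k)
    · obtain ⟨k, rfl⟩ := Nat.exists_eq_add_of_le hjn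
      rw [show wi ^ (n + k) * w ^ n = (w * wi) ^ n * wi ^ k by ring, h, one_pow, one_mul,
        U_wi_pow, ← U_w_pow]
      exact U_mem_Rw (pow_mem w_mem k)
  refine adjoin_induction_pow (fun g => U (wi ^ j * g) ∈ Rw) ?_ ?_ key hg
  · intro f g hf hg; rw [mul_add, map_add]; exact add_mem hf hg
  · intro c f hf
    rw [show wi ^ j * ((c : ℤ⟦X⟧) * f) = (c : ℤ⟦X⟧) * (wi ^ j * f) by ring, U_int_mul]
    exact mul_mem (intCast_mem' _ c) hf

/-- `U (V f) ∈ 2 V ℤ[w]` for `f ∈ ℤ[w, w^{-1}]` -/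
theorem U_V_mul_Rl {f : ℤ⟦X⟧} (hf : f ∈ Rl) : ∃ h ∈ Rw, U (V * f) = 2 * (V * h) := by
  obtain ⟨j, g, hg, rfl⟩ := Rl_form hf
  have h := w_mul_wi
  -- negative powers
  have hneg : ∀ k : ℕ, ∃ h ∈ Rw, U (V * wi ^ k) = 2 * (V * h) := by
    intro k
    induction k using Nat.strong_induction_on with
    | _ k ih =>
      rcases k with _ | _ | k
      · exact ⟨1, one_mem _, by rw [pow_zero, mul_one, U_V]⟩
      · refine ⟨0, zero_mem _, ?_⟩
        have e : V * wi = w - wi := by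
          unfold V; linear_combination w * h
        rw [zero_add, pow_one, e, map_sub, U_w, U_wi]; ring
      · obtain ⟨h1, hm1, e1⟩ := ih (k + 1) (by omega)
        obtain ⟨h2, hm2, e2⟩ := ih k (by omega)
        refine ⟨2 * w * h1 - h2, sub_mem (mul_mem (mul_mem (ofNat_mem _ 2) w_mem) hm1) hm2, ?_⟩
        have h3 := U_rec (V * wi ^ (k + 2))
        have e4 : w ^ 2 * (V * wi ^ (k + 2)) = V * wi ^ k := by
          rw [show w ^ 2 * (V * wi ^ (k + 2)) = (w * wi) ^ 2 * (V * wi ^ k) by ring, h]; ring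
        have e5 : w * (V * wi ^ (k + 2)) = V * wi ^ (k + 1) := by
          rw [show w * (V * wi ^ (k + 2)) = (w * wi) * (V * wi ^ (k + 1)) by ring, h]; ring
        rw [e4, e5, e1, e2] at h3
        rw [show k + 1 + 1 = k + 2 by ring]
        linear_combination h3
  have key : ∀ n : ℕ, ∃ h ∈ Rw, U (V * (wi ^ j * w ^ n)) = 2 * (V * h) := by
    intro n
    rcases le_total j n with hjn | hjn
    · obtain ⟨k, rfl⟩ := Nat.exists_eq_add_of_le hjn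
      rw [show wi ^ j * w ^ (j + k) = (w * wi) ^ j * w ^ k by ring, h, one_pow, one_mul]
      exact U_V_mul (pow_mem w_mem k)
    · obtain ⟨k, rfl⟩ := Nat.exists_eq_add_of_le hjn
      rw [show wi ^ (n + k) * w ^ n = (w * wi) ^ n * wi ^ k by ring, h, one_pow, one_mul]
      exact hneg k
  refine adjoin_induction_pow (fun g => ∃ h ∈ Rw, U (V * (wi ^ j * g)) = 2 * (V * h)) ?_ ?_ key hg
  · rintro f g ⟨h1, hm1, e1⟩ ⟨h2, hm2, e2⟩
    exact ⟨h1 + h2, add_mem hm1 hm2, by rw [mul_add, mul_add, map_add, e1, e2]; ring⟩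
  · rintro c f ⟨h1, hm1, e1⟩
    exact ⟨c * h1, mul_mem (intCast_mem' _ c) hm1, by
      rw [show V * (wi ^ j * ((c : ℤ⟦X⟧) * f)) = (c : ℤ⟦X⟧) * (V * (wi ^ j * f)) by ring,
        U_int_mul, e1]; ring⟩

/-- `U (V^i f) ∈ 2^i V ℤ[w]` for `i ≥ 1`, `f ∈ ℤ[w, w^{-1}]` -/
theorem U_V_pow_mul (i : ℕ) : ∀ f ∈ Rl, ∃ h ∈ Rw, U (V ^ (i + 1) * f) = 2 ^ (i + 1) * (V * h) := by
  induction i using Nat.strong_induction_on with
  | _ i ih =>
    intro f hf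
    rcases i with _ | _ | i
    · obtain ⟨h, hh, e⟩ := U_V_mul_Rl hf
      exact ⟨h, hh, by rw [zero_add, pow_one, pow_one, e]⟩
    · refine ⟨U ((1 + V) * f), U_mem_of_Rl (mul_mem (add_mem (one_mem _) V_mem_Rl) hf), ?_⟩
      rw [show (0 + 1 + 1) = 2 by rfl, U_V_sq_mul]; ring
    · obtain ⟨h, hh, e⟩ := ih i (by omega) ((1 + V) * f)
        (mul_mem (add_mem (one_mem _) V_mem_Rl) hf)
      refine ⟨V * h, mul_mem V_mem_w hh, ?_⟩
      rw [show V ^ (i + 1 + 1 + 1) * f = V ^ 2 * (V ^ (i + 1) * f) by ring, U_V_sq_mul,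
        show (1 + V) * (V ^ (i + 1) * f) = V ^ (i + 1) * ((1 + V) * f) by ring, e]
      ring

/-- `C(2^s, i+1) 2^(i+1)` is divisible by `2^(s+1)` -/
theorem dvd_choose_mul (s i : ℕ) : 2 ^ (s + 1) ∣ (2 ^ s).choose (i + 1) * 2 ^ (i + 1) := by
  -- (i+1) C(2^s, i+1) = 2^s C(2^s-1, i)
  have h1 : (2 ^ s).choose (i + 1) * (i + 1) = 2 ^ s * (2 ^ s - 1).choose i := by
    obtain ⟨k, hk⟩ : ∃ k, 2 ^ s = k + 1 := ⟨2 ^ s - 1, by have := Nat.one_le_two_pow (n := s); omega⟩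
    rw [hk, Nat.add_sub_cancel]
    exact (Nat.add_one_mul_choose_eq k i).symm
  obtain ⟨e, o, ho, he⟩ := Nat.exists_eq_two_pow_mul_odd (n := i + 1) (by omega)
  have h2 : e ≤ i := by
    have : 2 ^ e ≤ i + 1 := by
      rw [he]; exact Nat.le_mul_of_pos_right _ ho.pos
    have h3 := Nat.lt_two_pow_self (n := e)
    omega
  obtain ⟨d, hd⟩ := Nat.exists_eq_add_of_le h2
  have h4 : 2 ^ s ∣ (2 ^ s).choose (i + 1) * 2 ^ e := by
    have hc : Nat.Coprime (2 ^ s) o := Nat.Coprime.pow_left _ (Nat.coprime_two_left.2 ho)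
    refine hc.dvd_of_dvd_mul_right ?_
    rw [mul_assoc, ← he, h1]
    exact Dvd.intro _ rfl
  rw [show i + 1 = e + (d + 1) by omega, pow_add 2 e (d + 1), ← mul_assoc, pow_succ 2 s, hd] at *
  exact Nat.mul_dvd_mul h4 ⟨2 ^ d, by ring⟩

/-- `U ((w^{2^m} - 1) f) ∈ 2^m V ℤ[w]` for `f ∈ ℤ[w, w^{-1}]`, `m ≥ 1` -/
theorem U_sub_one_mul (s : ℕ) {f : ℤ⟦X⟧} (hf : f ∈ Rl) :
    ∃ h ∈ Rw, U ((w ^ (2 ^ (s + 1)) - 1) * f) = 2 ^ (s + 1) * (V * h) := by
  have e1 : w ^ (2 ^ (s + 1)) = (V + 1) ^ (2 ^ s) := by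
    rw [pow_succ', w_pow_two_mul, add_comm]
  rw [e1, add_pow]
  simp only [one_pow, mul_one]
  rw [Finset.sum_range_succ']
  simp only [pow_zero, Nat.choose_zero_right, Nat.cast_one, mul_one, add_sub_cancel_right]
  rw [Finset.sum_mul, map_sum]
  have key : ∀ i : ℕ, ∃ h ∈ Rw, U (V ^ (i + 1) * ((Nat.choose (2 ^ s) (i + 1) : ℕ) : ℤ⟦X⟧) * f) =
      2 ^ (s + 1) * (V * h) := by
    intro i
    obtain ⟨h, hh, e⟩ := U_V_pow_mul i f hf
    obtain ⟨c, hc⟩ := dvd_choose_mul s i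
    refine ⟨c * h, mul_mem (natCast_mem _ c) hh, ?_⟩
    have hc' : ((Nat.choose (2 ^ s) (i + 1) : ℕ) : ℤ⟦X⟧) * 2 ^ (i + 1) = 2 ^ (s + 1) * (c : ℤ⟦X⟧) := by
      have := congrArg (fun z : ℕ => (z : ℤ⟦X⟧)) hc
      push_cast at this ⊢
      exact this
    have := U_int_mul ((Nat.choose (2 ^ s) (i + 1) : ℕ) : ℤ) (V ^ (i + 1) * f)
    rw [Int.cast_natCast] at this
    rw [show V ^ (i + 1) * ((Nat.choose (2 ^ s) (i + 1) : ℕ) : ℤ⟦X⟧) * f =
      ((Nat.choose (2 ^ s) (i + 1) : ℕ) : ℤ⟦X⟧) * (V ^ (i + 1) * f) by ring, this, e]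
    linear_combination (V * h) * hc'
  choose h hh e using key
  refine ⟨∑ i ∈ Finset.range (2 ^ s), h i, sum_mem fun i _ => hh i, ?_⟩
  rw [Finset.mul_sum, Finset.mul_sum]
  exact Finset.sum_congr rfl fun i _ => e i

/-- `(1-x)^2 = (1-x^2) w^{-1}` -/
theorem sq_eq : (1 - X : ℤ⟦X⟧) ^ 2 = E (1 - X) * wi := by
  have h := wi_eq
  rw [map_sub, map_one, expand_X]
  linear_combination (-(1 - X)) * h

theorem U_pow_mul (a : ℕ) (g : ℤ⟦X⟧) :
    U ((1 - X) ^ (2 * a) * g) = (1 - X) ^ a * U (wi ^ a * g) := by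
  rw [pow_mul, sq_eq, mul_pow, ← map_pow, mul_assoc, U_E_mul]

/-- `Û_r`: the polynomial `q̂_r` with `U^r ((1-x)^{2^r a}) = (1-x)^a q̂_r`, together with
`A^r ((1-x)^{2^r a}) - U^r (...)`. -/
theorem iterate_step (s a r : ℕ) :
    ∃ q ∈ Rw, ∃ h ∈ Rw, (Uop 2)^[r] ((1 - X) ^ (2 ^ r * a)) = (1 - X) ^ a * q ∧
      (Uop 2)^[r] (H 2 (2 ^ (s + 1)) * (1 - X) ^ (2 ^ r * a)) =
        H 2 (2 ^ (s + 1)) * ((1 - X) ^ a * (q + 2 ^ (s + 1) * (V * h))) := by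
  induction r generalizing a with
  | zero => exact ⟨1, one_mem _, 0, zero_mem _, by simp, by simp⟩
  | succ r ih =>
    obtain ⟨q, hq, h, hh, e1, e2⟩ := ih (2 * a)
    have hq' : wi ^ a * q ∈ Rl := mul_mem (pow_mem wi_mem_Rl a) (Rw_le_Rl hq)
    obtain ⟨h1, hh1, e3⟩ := U_sub_one_mul s hq'
    obtain ⟨h2, hh2, e4⟩ := U_V_mul_Rl (f := w ^ (2 ^ (s + 1)) * (wi ^ a * h))
      (mul_mem (pow_mem w_mem_Rl _) (mul_mem (pow_mem wi_mem_Rl a) (Rw_le_Rl hh)))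
    refine ⟨U (wi ^ a * q), U_mem_of_Rl hq', h1 + 2 * h2,
      add_mem hh1 (mul_mem (ofNat_mem _ 2) hh2), ?_, ?_⟩
    · rw [Function.iterate_succ_apply', pow_succ, mul_assoc, e1]
      exact U_pow_mul a q
    · rw [Function.iterate_succ_apply', pow_succ 2 r, mul_assoc, e2]
      change U _ = _
      rw [U_F_mul, show w ^ (2 ^ (s + 1)) * ((1 - X) ^ (2 * a) * (q + 2 ^ (s + 1) * (V * h))) =
        (1 - X) ^ (2 * a) * (w ^ (2 ^ (s + 1)) * (q + 2 ^ (s + 1) * (V * h))) by ring, U_pow_mul,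
        show wi ^ a * (w ^ (2 ^ (s + 1)) * (q + 2 ^ (s + 1) * (V * h))) =
        wi ^ a * q + (w ^ (2 ^ (s + 1)) - 1) * (wi ^ a * q) +
          2 ^ (s + 1) * (V * (w ^ (2 ^ (s + 1)) * (wi ^ a * h))) by ring, map_add, map_add, e3,
        U_pow2_mul, e4]
      ring

/-- `U^m ((1-x)^{2^m}) = 1 + x` for `m ≥ 1` -/
theorem iterate_one_sub (s : ℕ) : (Uop 2)^[s + 1] ((1 - X) ^ (2 ^ (s + 1))) = 1 + X := by
  ext n
  rw [coeff_iterate_Uop, map_add, coeff_one, coeff_X]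
  have h : (1 - X : ℤ⟦X⟧) ^ (2 ^ (s + 1)) =
      (((1 : Polynomial ℤ) - Polynomial.X) ^ (2 ^ (s + 1)) : Polynomial ℤ) := by
    push_cast
    rfl
  rw [h, Polynomial.coeff_coe]
  have h3 : ((1 : Polynomial ℤ) - Polynomial.X) ^ (2 ^ (s + 1)) =
      (Polynomial.X - Polynomial.C 1) ^ (2 ^ (s + 1)) := by
    rw [show (1 : Polynomial ℤ) - Polynomial.X = -(Polynomial.X - Polynomial.C 1) by
      rw [map_one]; ring]
    rw [neg_pow, Even.neg_one_pow, one_mul]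
    rw [pow_succ']
    exact even_two_mul _
  rw [h3]
  rcases n with _ | _ | n
  · rw [mul_zero, Polynomial.coeff_zero_eq_eval_zero]
    simp only [Polynomial.eval_pow, Polynomial.eval_sub, Polynomial.eval_X, Polynomial.eval_C,
      zero_sub]
    rw [pow_succ', pow_mul]
    norm_num
  · rw [zero_add, mul_one]
    have hm : ((Polynomial.X - Polynomial.C 1 : Polynomial ℤ) ^ (2 ^ (s + 1))).natDegree =
        2 ^ (s + 1) := by
      rw [Polynomial.natDegree_pow, Polynomial.natDegree_X_sub_C, mul_one]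
    have hmon : ((Polynomial.X - Polynomial.C 1 : Polynomial ℤ) ^ (2 ^ (s + 1))).Monic :=
      (Polynomial.monic_X_sub_C 1).pow _
    have := hmon.coeff_natDegree
    rw [hm] at this
    simpa using this
  · rw [Polynomial.coeff_eq_zero_of_natDegree_lt]
    · simp
    · rw [Polynomial.natDegree_pow, Polynomial.natDegree_X_sub_C, mul_one]
      have := Nat.one_le_two_pow (n := s + 1)
      nlinarith

/-- the `m`-th step: `U^m (B^M) = F (1-x) (w + 2^m V h)` -/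
theorem step_m (s : ℕ) : ∃ h ∈ Rw, (Uop 2)^[s + 1] (BM (2 ^ (s + 1))) =
    H 2 (2 ^ (s + 1)) * ((1 - X) * (w + 2 ^ (s + 1) * (V * h))) := by
  obtain ⟨q, hq, h, hh, e1, e2⟩ := iterate_step s 1 (s + 1)
  rw [mul_one, pow_one] at e1 e2
  rw [iterate_one_sub, ← w_eq] at e1
  have e3 := mul_left_cancel₀ one_sub_X_ne e1
  refine ⟨h, hh, ?_⟩
  rw [BM_eq, mul_comm, e2, ← e3]

theorem U_one_sub : U (1 - X) = 1 := by
  ext n
  rw [coeff_Uop, map_sub, coeff_one, coeff_X, coeff_one]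
  rcases n with _ | n
  · simp
  · rw [if_neg (by omega), if_neg (by omega), if_neg (by omega)]; ring

theorem U_one_add : U (1 + X) = 1 := by
  ext n
  rw [coeff_Uop, map_add, coeff_one, coeff_X, coeff_one]
  rcases n with _ | n
  · simp
  · rw [if_neg (by omega), if_neg (by omega), if_neg (by omega)]; ring

/-- `U_{j-1}(w)` -/
noncomputable def u : ℕ → ℤ⟦X⟧
  | 0 => 0
  | 1 => 1
  | (j + 2) => 2 * w * u (j + 1) - u j

/-- `U ((1-x) w^{j+1}) = T_j(w) + (w-1) U_{j-1}(w)` -/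
theorem U_one_sub_w_pow (j : ℕ) : U ((1 - X) * w ^ (j + 1)) = t w j + (w - 1) * u j := by
  induction j using Nat.strong_induction_on with
  | _ j ih =>
    have h0 : U ((1 - X) * w) = 1 := by rw [w_eq, U_one_add]
    have h1 := U_one_sub
    rcases j with _ | _ | j
    · rw [zero_add, pow_one, h0, t_zero, u]; ring
    · have h2 := U_rec (1 - X)
      rw [show w * (1 - X) = (1 - X) * w by ring, h0, h1] at h2
      rw [show (1 - X) * w ^ (0 + 1 + 1) = w ^ 2 * (1 - X) by ring, h2, zero_add, t_one, u]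
      ring
    · rw [show (1 - X) * w ^ (j + 1 + 1 + 1) = w ^ 2 * ((1 - X) * w ^ (j + 1)) by ring, U_rec,
        show w * ((1 - X) * w ^ (j + 1)) = (1 - X) * w ^ (j + 1 + 1) by ring,
        ih j (by omega), ih (j + 1) (by omega), show j + 1 + 1 = j + 2 by ring, t_add_two, u]
      ring

theorem U_one_sub_mul {f : ℤ⟦X⟧} (hf : f ∈ Rw) : U ((1 - X) * f) ∈ Rw := by
  have ht : ∀ j, t w j ∈ Rw := fun j => by rw [← U_w_pow]; exact U_mem_Rw (pow_mem w_mem j)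
  have hu : ∀ j, u j ∈ Rw := by
    intro j
    induction j using Nat.strong_induction_on with
    | _ j ih =>
      rcases j with _ | _ | j
      · exact zero_mem _
      · exact one_mem _
      · exact sub_mem (mul_mem (mul_mem (ofNat_mem _ 2) w_mem) (ih _ (by omega))) (ih _ (by omega))
  refine adjoin_induction_pow (fun f => U ((1 - X) * f) ∈ Rw) ?_ ?_ ?_ hf
  · intro f g hf hg; rw [mul_add, map_add]; exact add_mem hf hg
  · intro c f hf
    rw [show (1 - X) * ((c : ℤ⟦X⟧) * f) = (c : ℤ⟦X⟧) * ((1 - X) * f) by ring, U_int_mul]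
    exact mul_mem (intCast_mem' _ c) hf
  · intro n
    rcases n with _ | n
    · rw [pow_zero, mul_one, U_one_sub]; exact one_mem _
    · rw [U_one_sub_w_pow]
      exact add_mem (ht _) (mul_mem (sub_mem w_mem (one_mem _)) (hu _))

/-- `T_{j+1} = w T_j + V U_{j-1}`, `U_j = T_j + w U_{j-1}` -/
theorem t_succ_u_succ (j : ℕ) : t w (j + 1) = w * t w j + V * u j ∧ u (j + 1) = t w j + w * u j := by
  induction j with
  | zero => simp [t_zero, t_one, u]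
  | succ j ih =>
    obtain ⟨h1, h2⟩ := ih
    constructor
    · rw [show j + 1 + 1 = j + 2 by ring, t_add_two, h2, h1]
      unfold V
      ring
    · rw [show j + 1 + 1 = j + 2 by ring, u, h2, h1]
      unfold V
      ring

theorem u_add (i j : ℕ) : u (i + j) = u i * t w j + t w i * u j ∧
    t w (i + j) = t w i * t w j + V * (u i * u j) := by
  induction i with
  | zero => simp [t_zero, u]
  | succ i ih =>
    obtain ⟨h1, h2⟩ := ih
    obtain ⟨a1, a2⟩ := t_succ_u_succ (i + j)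
    obtain ⟨b1, b2⟩ := t_succ_u_succ i
    rw [show i + 1 + j = i + j + 1 by ring, a1, a2, b1, b2, h1, h2]
    constructor <;> ring

theorem t_two_pow (s : ℕ) : ∃ h ∈ Rw, t w (2 ^ (s + 1)) = 1 + 2 ^ (s + 1) * (V * h) := by
  have h1 := good_t (2 ^ s) (Nat.one_le_two_pow)
  rw [padicValNat.prime_pow] at h1
  obtain ⟨g, hg, e⟩ := good_V h1
  refine ⟨2 ^ s * g, mul_mem (pow_mem (ofNat_mem _ 2) _) (RV_le hg), ?_⟩
  rw [pow_succ', t_w_two_mul]
  linear_combination e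

theorem u_two_pow (s : ℕ) : ∃ h ∈ Rw, u (2 ^ (s + 1)) = 2 ^ (s + 1) * (w + V * h) := by
  induction s with
  | zero => exact ⟨0, zero_mem _, by simp [u]⟩
  | succ s ih =>
    obtain ⟨h, hh, e⟩ := ih
    obtain ⟨g, hg, e'⟩ := t_two_pow s
    refine ⟨h + w * (2 ^ (s + 1) * g) + h * (2 ^ (s + 1) * (V * g)), ?_, ?_⟩
    · exact add_mem (add_mem hh (mul_mem w_mem (mul_mem (pow_mem (ofNat_mem _ 2) _) hg)))
        (mul_mem hh (mul_mem (pow_mem (ofNat_mem _ 2) _) (mul_mem V_mem_w hg)))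
    · rw [pow_succ 2 (s + 1), mul_two, (u_add _ _).1, e, e']
      ring

theorem Rw_decomp {f : ℤ⟦X⟧} (hf : f ∈ Rw) :
    ∃ a b : ℤ, ∃ g ∈ Rw, f = (a : ℤ⟦X⟧) + (b : ℤ⟦X⟧) * w + V * g := by
  refine adjoin_induction_pow
    (fun f => ∃ a b : ℤ, ∃ g ∈ Rw, f = (a : ℤ⟦X⟧) + (b : ℤ⟦X⟧) * w + V * g) ?_ ?_ ?_ hf
  · rintro f g ⟨a, b, f1, h1, rfl⟩ ⟨a', b', g1, h2, rfl⟩
    exact ⟨a + a', b + b', f1 + g1, add_mem h1 h2, by push_cast; ring⟩
  · rintro c f ⟨a, b, f1, h1, rfl⟩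
    exact ⟨c * a, c * b, c * f1, mul_mem (intCast_mem' _ c) h1, by push_cast; ring⟩
  · intro n
    induction n using Nat.strong_induction_on with
    | _ n ih =>
      rcases n with _ | _ | n
      · exact ⟨1, 0, 0, zero_mem _, by simp⟩
      · exact ⟨0, 1, 0, zero_mem _, by simp⟩
      · obtain ⟨a, b, g, hg, e⟩ := ih n (by omega)
        refine ⟨a, b, g + w ^ n, add_mem hg (pow_mem w_mem n), ?_⟩
        rw [show w ^ (n + 1 + 1) = w ^ 2 * w ^ n by ring]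
        unfold V at *
        linear_combination e

/-- `A g = U (w^M g)` satisfies `(A^2 - 1)(a + b w + 2^m V h) ∈ 2^m V ℤ[w]` -/
theorem A_sq (s : ℕ) (a b : ℤ) {h : ℤ⟦X⟧} (hh : h ∈ Rw) :
    ∃ g ∈ Rw, U (w ^ (2 ^ (s + 1)) * U (w ^ (2 ^ (s + 1)) *
      ((a : ℤ⟦X⟧) + (b : ℤ⟦X⟧) * w + 2 ^ (s + 1) * (V * h)))) -
        ((a : ℤ⟦X⟧) + (b : ℤ⟦X⟧) * w + 2 ^ (s + 1) * (V * h)) = 2 ^ (s + 1) * (V * g) := by
  have hw := fun n => pow_mem w_mem n
  obtain ⟨h1, hh1, e1⟩ := t_two_pow s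
  obtain ⟨h2, hh2, e2⟩ := u_two_pow s
  have hA : ∀ f ∈ Rw, ∃ g ∈ Rw, U (w ^ (2 ^ (s + 1)) * (2 ^ (s + 1) * (V * f))) =
      2 ^ (s + 1) * (V * g) := by
    intro f hf
    obtain ⟨g, hg, e⟩ := U_V_mul (mul_mem (hw (2 ^ (s + 1))) hf)
    refine ⟨2 * g, mul_mem (ofNat_mem _ 2) hg, ?_⟩
    rw [show w ^ (2 ^ (s + 1)) * (2 ^ (s + 1) * (V * f)) = 2 ^ (s + 1) *
      (V * (w ^ (2 ^ (s + 1)) * f)) by ring, U_pow2_mul, e]
    ring
  have hA1 : U (w ^ (2 ^ (s + 1))) = 1 + 2 ^ (s + 1) * (V * h1) := by rw [U_w_pow, e1]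
  have hAw : U (w ^ (2 ^ (s + 1)) * w) = w + 2 ^ (s + 1) * (V * (w * h1 + w + V * h2)) := by
    rw [← pow_succ, U_w_pow, (t_succ_u_succ _).1, e1, e2]; ring
  have hAf : ∀ f ∈ Rw, ∃ g ∈ Rw, U (w ^ (2 ^ (s + 1)) *
      ((a : ℤ⟦X⟧) + (b : ℤ⟦X⟧) * w + 2 ^ (s + 1) * (V * f))) =
      (a : ℤ⟦X⟧) + (b : ℤ⟦X⟧) * w + 2 ^ (s + 1) * (V * g) := by
    intro f hf
    obtain ⟨g, hg, e⟩ := hA f hf
    refine ⟨a * h1 + b * (w * h1 + w + V * h2) + g, add_mem (add_mem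
      (mul_mem (intCast_mem' _ a) hh1) (mul_mem (intCast_mem' _ b) (add_mem (add_mem
        (mul_mem w_mem hh1) w_mem) (mul_mem V_mem_w hh2)))) hg, ?_⟩
    rw [show w ^ (2 ^ (s + 1)) * ((a : ℤ⟦X⟧) + (b : ℤ⟦X⟧) * w + 2 ^ (s + 1) * (V * f)) =
      (a : ℤ⟦X⟧) * w ^ (2 ^ (s + 1)) + (b : ℤ⟦X⟧) * (w ^ (2 ^ (s + 1)) * w) +
      w ^ (2 ^ (s + 1)) * (2 ^ (s + 1) * (V * f)) by ring, map_add, map_add, U_int_mul, U_int_mul,
      hA1, hAw, e]
    ring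
  obtain ⟨g1, hg1, e3⟩ := hAf h hh
  obtain ⟨g2, hg2, e4⟩ := hAf g1 hg1
  refine ⟨g2 - h, sub_mem hg2 hh, ?_⟩
  rw [e3, e4]
  ring

/-- the next step -/
theorem step_succ (s : ℕ) : ∃ a b : ℤ, ∃ h ∈ Rw, (Uop 2)^[s + 2] (BM (2 ^ (s + 1))) =
    H 2 (2 ^ (s + 1)) * ((a : ℤ⟦X⟧) + (b : ℤ⟦X⟧) * w + 2 ^ (s + 1) * (V * h)) := by
  obtain ⟨h, hh, e⟩ := step_m s
  obtain ⟨h1, hh1, e1⟩ := t_two_pow s
  obtain ⟨h2, hh2, e2⟩ := u_two_pow s
  have hk : U ((1 - X) * (w ^ (2 ^ (s + 1)) * (V * h))) ∈ Rw :=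
    U_one_sub_mul (mul_mem (pow_mem w_mem _) (mul_mem V_mem_w hh))
  obtain ⟨a, b, g, hg, e3⟩ := Rw_decomp hk
  refine ⟨1 + 2 ^ (s + 1) + 2 ^ (s + 1) * a, - 2 ^ (s + 1) + 2 ^ (s + 1) * b,
    h1 + 1 + (w - 1) * h2 + g, add_mem (add_mem (add_mem hh1 (one_mem _))
      (mul_mem (sub_mem w_mem (one_mem _)) hh2)) hg, ?_⟩
  rw [Function.iterate_succ_apply', e]
  change U _ = _
  rw [U_F_mul, show w ^ (2 ^ (s + 1)) * ((1 - X) * (w + 2 ^ (s + 1) * (V * h))) =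
    (1 - X) * w ^ (2 ^ (s + 1) + 1) + 2 ^ (s + 1) * ((1 - X) * (w ^ (2 ^ (s + 1)) * (V * h))) by
      ring, map_add, U_pow2_mul, U_one_sub_w_pow, e1, e2, e3]
  congr 1
  have hV : V = w ^ 2 - 1 := rfl
  push_cast
  linear_combination (-(2 ^ (s + 1) : ℤ⟦X⟧)) * hV

/-- **the congruence**: for `m ≥ 1`, `k ≥ m + 2`. -/
theorem congr_main (m k n : ℕ) (hm : 1 ≤ m) (hk : m + 2 ≤ k) :
    (2 : ℤ) ^ k ∣ b (2 ^ m) (2 ^ (k + 1) * n) - b (2 ^ m) (2 ^ (k - 1) * n) := by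
  obtain ⟨s, rfl⟩ : ∃ s, m = s + 1 := ⟨m - 1, by omega⟩
  obtain ⟨j, rfl⟩ : ∃ j, k = j + (s + 1) + 2 := ⟨k - (s + 1) - 2, by omega⟩
  obtain ⟨a, b', h, hh, e⟩ := step_succ s
  obtain ⟨g, hg, e2⟩ := A_sq s a b' hh
  set F := H 2 (2 ^ (s + 1)) with hF
  set f := (a : ℤ⟦X⟧) + (b' : ℤ⟦X⟧) * w + 2 ^ (s + 1) * (V * h) with hf
  have h1 : U (U (F * f)) - F * f = F * (2 ^ (s + 1) * (V * g)) := by
    rw [U_F_mul, U_F_mul, ← e2]
    ring
  have h2 := dvd_coeff_V (2 ^ (s + 1)) j (s + 1) n hg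
  rw [← hF, ← h1, coeff_iterate_Uop, map_sub, coeff_Uop, coeff_Uop, ← e, coeff_iterate_Uop,
    coeff_iterate_Uop] at h2
  rw [b, b]
  have e5 : 2 ^ (s + 2) * (2 * (2 * (2 ^ j * n))) = 2 ^ (j + (s + 1) + 2 + 1) * n := by ring
  have e6 : 2 ^ (s + 2) * (2 ^ j * n) = 2 ^ (j + (s + 1) + 2 - 1) * n := by
    rw [show j + (s + 1) + 2 - 1 = j + (s + 2) by omega]; ring
  rw [e5, e6] at h2
  exact h2

end Q279.Col.Bin
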