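import Mathlib

/-!
# Coloured binary partitions

`b m n` is the coefficient of `x ^ n` in `∏_{i ≥ 0} (1 - x^{2^i})^{-m}`.
-/

set_option autoImplicit false

namespace Q279.Col.Bin

open PowerSeries
open scoped PowerSeries.WithPiTopology

/-- The power series `∏_{i ≥ 0} (1 - x^{2^i})^m` in `ℤ⟦x⟧`. -/
noncomputable def denB (m : ℕ) : ℤ⟦X⟧ := ∏' i : ℕ, (1 - X ^ 2 ^ i) ^ m

/-- The inverse power series `∏_{i ≥ 0} (1 - x^{2^i})^{-m}` in `ℤ⟦x⟧`. -/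
noncomputable def BM (m : ℕ) : ℤ⟦X⟧ := invOfUnit (denB m) 1

/-- `b m n` is the coefficient of `x ^ n` in `∏_{i ≥ 0} (1 - x^{2^i})^{-m}`. -/
noncomputable def b (m n : ℕ) : ℤ := coeff n (BM m)

end Q279.Col.Bin
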