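import Mathlib

/-!
# Coloured partitions into powers of `k`

`S k m n` is the coefficient of `x ^ n` in
`(1 - x)^{-m} ∏_{i ≥ 0} (1 - x^{k^i})^{-m (k - 1)}`.
-/

set_option autoImplicit false

namespace Q279.Col

open PowerSeries
open scoped PowerSeries.WithPiTopology

/-- The power series `(1 - x)^m ∏_{i ≥ 0} (1 - x^{k^i})^{m (k - 1)}` in `ℤ⟦x⟧`. -/
noncomputable def den (k m : ℕ) : ℤ⟦X⟧ :=
  (1 - X) ^ m * ∏' i : ℕ, (1 - X ^ k ^ i) ^ (m * (k - 1))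

/-- The inverse power series `(1 - x)^{-m} ∏_{i ≥ 0} (1 - x^{k^i})^{-m (k - 1)}` in `ℤ⟦x⟧`. -/
noncomputable def H (k m : ℕ) : ℤ⟦X⟧ := invOfUnit (den k m) 1

/-- `S k m n` is the coefficient of `x ^ n` in `(1 - x)^{-m} ∏_{i ≥ 0} (1 - x^{k^i})^{-m (k - 1)}`.
-/
noncomputable def S (k m n : ℕ) : ℤ := coeff n (H k m)

end Q279.Col
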