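import Pool.Agent.Q279.Col.Basic

set_option autoImplicit false

/-! The case `k = 4`, `4 ∣ m`. -/

namespace Q279.Col

open PowerSeries

/-- the series `∑_{n odd} 2 x^n + ∑_{j odd} j x^{2j}` -/
noncomputable def mu : ℤ⟦X⟧ :=
  mk fun n => if n % 2 = 1 then 2 else if n % 4 = 2 then ((n / 2 : ℕ) : ℤ) else 0

noncomputable def mu1 : ℤ⟦X⟧ := mk fun n => if n % 2 = 1 then 1 else 0
noncomputable def mu2 : ℤ⟦X⟧ := mk fun n => if n % 4 = 2 then ((n / 2 : ℕ) : ℤ) else 0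

theorem mu_eq : mu = 2 * mu1 + mu2 := by
  ext n
  rw [show (2 : ℤ⟦X⟧) = C (2 : ℤ) from (map_ofNat _ 2).symm]
  simp only [mu, mu1, mu2, map_add, coeff_C_mul, coeff_mk]
  split_ifs <;> omega

theorem mu1_eq : (1 - X ^ 2) * mu1 = X := by
  ext n
  rw [sub_mul, one_mul, map_sub, coeff_X_pow_mul', coeff_X, mu1]
  simp only [coeff_mk]
  split_ifs <;> omega

theorem mu2_eq : (1 - X ^ 4) ^ 2 * mu2 = X ^ 2 * (1 + X ^ 4) := by
  rw [show (1 - X ^ 4 : ℤ⟦X⟧) ^ 2 * mu2 = mu2 - X ^ 4 * mu2 - X ^ 4 * mu2 + X ^ 8 * mu2 by ring,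
    show (X ^ 2 * (1 + X ^ 4) : ℤ⟦X⟧) = X ^ 2 + X ^ 6 by ring]
  ext n
  simp only [map_sub, map_add, coeff_X_pow_mul', coeff_X_pow, mu2, coeff_mk]
  split_ifs <;> push_cast <;> omega

/-- the error polynomial -/
noncomputable def err : ℤ⟦X⟧ :=
  4 * X ^ 2 - 17 * X ^ 3 + 57 * X ^ 4 - 138 * X ^ 5 + 250 * X ^ 6 - 359 * X ^ 7 + 402 * X ^ 8
    - 356 * X ^ 9 + 250 * X ^ 10 - 135 * X ^ 11 + 57 * X ^ 12 - 18 * X ^ 13 + 4 * X ^ 14 - X ^ 15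

theorem poly_id : (1 - X : ℤ⟦X⟧) ^ 16 = (1 - X ^ 4) ^ 4 * (1 - 8 * mu) + 32 * err := by
  have h1 := mu1_eq
  have h2 := mu2_eq
  have h3 : (1 - X ^ 4 : ℤ⟦X⟧) ^ 4 * mu =
      2 * X * (1 + X ^ 2) * (1 - X ^ 4) ^ 3 + X ^ 2 * (1 + X ^ 4) * (1 - X ^ 4) ^ 2 := by
    rw [mu_eq]
    linear_combination (2 * (1 + X ^ 2) * (1 - X ^ 4) ^ 3) * h1 + ((1 - X ^ 4) ^ 2) * h2
  rw [mul_sub, mul_one, show (1 - X ^ 4 : ℤ⟦X⟧) ^ 4 * (8 * mu) = 8 * ((1 - X ^ 4) ^ 4 * mu) by ring,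
    h3, err]
  ring

theorem exists_inv (a : ℕ) : ∃ g : ℤ⟦X⟧, (1 - X ^ 4) ^ a * g = 1 :=
  ⟨invOfUnit ((1 - X ^ 4) ^ a) 1, mul_invOfUnit _ _ (by simp)⟩

theorem sq_step (t : ℕ) (a b : ℤ⟦X⟧) :
    ∃ b' : ℤ⟦X⟧, (1 - 2 ^ (t + 3) * a + 2 ^ (t + 5) * b) ^ 2 =
      1 - 2 ^ (t + 4) * a + 2 ^ (t + 6) * b' :=
  ⟨b + 2 ^ t * (a - 4 * b) ^ 2, by ring⟩

theorem pow_two_step (a b : ℤ⟦X⟧) (t : ℕ) :
    ∃ b' : ℤ⟦X⟧, (1 - 8 * a + 32 * b) ^ 2 ^ t = 1 - 2 ^ (t + 3) * a + 2 ^ (t + 5) * b' := by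
  induction t with
  | zero => exact ⟨b, by norm_num⟩
  | succ t ih =>
    obtain ⟨b', hb'⟩ := ih
    obtain ⟨b'', hb''⟩ := sq_step t a b'
    exact ⟨b'', by rw [pow_succ, pow_mul, hb', hb'']⟩

theorem pow_step (a b : ℤ⟦X⟧) (t w : ℕ) :
    ∃ b' : ℤ⟦X⟧, (1 - 2 ^ (t + 3) * a + 2 ^ (t + 5) * b) ^ w =
      1 - 2 ^ (t + 3) * ((w : ℤ⟦X⟧) * a) + 2 ^ (t + 5) * b' := by
  induction w with
  | zero => exact ⟨0, by simp⟩
  | succ w ih =>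
    obtain ⟨b', hb'⟩ := ih
    refine ⟨b + b' + 2 ^ (t + 1) * (((w : ℤ⟦X⟧) * a - 4 * b') * (a - 4 * b)), ?_⟩
    rw [pow_succ, hb']
    push_cast
    ring

/-- The functional equation of `H 4 m`, `m = 4 * 2^t * w`, modulo `2^(t+5)`. -/
theorem H4_feq (t w : ℕ) : ∃ b : ℤ⟦X⟧,
    (1 - 2 ^ (t + 3) * ((w : ℤ⟦X⟧) * mu) + 2 ^ (t + 5) * b) * H 4 (4 * 2 ^ t * w) =
      expand 4 (by norm_num) (H 4 (4 * 2 ^ t * w)) := by
  obtain ⟨g, hg⟩ := exists_inv 4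
  obtain ⟨b1, hb1⟩ := pow_two_step mu (err * g) t
  obtain ⟨b2, hb2⟩ := pow_step mu b1 t w
  refine ⟨b2, ?_⟩
  have hf := H_feq (k := 4) (by norm_num) (4 * 2 ^ t * w)
  have h1 : ((1 - X : ℤ⟦X⟧) ^ 16 * g) = 1 - 8 * mu + 32 * (err * g) := by
    rw [poly_id]
    linear_combination (1 - 8 * mu) * hg
  rw [← hb2, ← hb1, ← h1, ← pow_mul, mul_pow, ← pow_mul]
  have h2 : (1 - X ^ 4 : ℤ⟦X⟧) ^ (4 * 2 ^ t * w) * g ^ (2 ^ t * w) = 1 := by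
    rw [show 4 * 2 ^ t * w = 4 * (2 ^ t * w) by ring, pow_mul, ← mul_pow, hg, one_pow]
  rw [show 16 * (2 ^ t * w) = 4 * (4 * 2 ^ t * w) by ring]
  linear_combination (g ^ (2 ^ t * w)) * hf + (expand 4 (by norm_num) (H 4 (4 * 2 ^ t * w))) * h2

theorem coeff_int_mul (c : ℤ) (f : ℤ⟦X⟧) (n : ℕ) :
    coeff n ((c : ℤ⟦X⟧) * f) = c * coeff n f := by
  rw [show (c : ℤ⟦X⟧) = C c from (map_intCast (C (R := ℤ)) c).symm, coeff_C_mul]

theorem dvd_H (t w : ℕ) (n : ℕ) (hn : 1 ≤ n) :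
    (2 : ℤ) ^ (t + 3) ∣ coeff n (H 4 (4 * 2 ^ t * w)) := by
  obtain ⟨b, hb⟩ := H4_feq t w
  set F := H 4 (4 * 2 ^ t * w) with hF
  induction n using Nat.strong_induction_on with
  | _ n ih =>
    have h1 := congrArg (coeff n) hb
    rw [show (1 - 2 ^ (t + 3) * ((w : ℤ⟦X⟧) * mu) + 2 ^ (t + 5) * b) * F =
      F + ((2 ^ (t + 3) : ℤ) : ℤ⟦X⟧) * ((4 * b - (w : ℤ⟦X⟧) * mu) * F) by push_cast; ring,
      map_add, coeff_int_mul, coeff_expand] at h1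
    split_ifs at h1 with h4
    · obtain ⟨j, rfl⟩ := h4
      have h2 := ih (4 * j / 4) (by omega) (by omega)
      exact (dvd_add_left (Dvd.intro _ rfl)).1 (h1 ▸ h2)
    · exact (dvd_add_left (Dvd.intro _ rfl)).1 (h1 ▸ dvd_zero _)

theorem padicValNat_two_four_mul (n : ℕ) (hn : 1 ≤ n) :
    padicValNat 2 (4 * n) = padicValNat 2 n + 2 := by
  rw [show 4 * n = 2 ^ 2 * n by ring, padicValNat.mul (by norm_num) (by omega),
    padicValNat.prime_pow]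
  ring

/-- The coefficients of `H 4 m` modulo `4 * (2 m)`, `m = 4 * 2^t * w`. -/
theorem coeff_H4 (t w : ℕ) (hw : w % 2 = 1) (n : ℕ) (hn : 1 ≤ n) :
    ∃ h : ℤ, S 4 (4 * 2 ^ t * w) n = 2 ^ (t + 3) * h ∧
      ((padicValNat 2 n % 2 = 0 ∧ h % 4 = 2) ∨ (padicValNat 2 n % 2 = 1 ∧ h % 2 = 1)) := by
  obtain ⟨b, hb⟩ := H4_feq t w
  have hdiv := dvd_H t w
  unfold S
  set F := H 4 (4 * 2 ^ t * w) with hF
  -- write `F = 1 + e G`
  obtain ⟨G, hG⟩ : ∃ G : ℤ⟦X⟧, F = 1 + ((2 ^ (t + 3) : ℤ) : ℤ⟦X⟧) * G := by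
    refine ⟨mk fun n => if n = 0 then 0 else coeff n F / 2 ^ (t + 3), ?_⟩
    ext n
    rw [map_add, coeff_int_mul, coeff_mk, coeff_one]
    split_ifs with h
    · subst h
      rw [mul_zero, add_zero, coeff_zero_eq_constantCoeff_apply, hF, constCoeff_H (by norm_num)]
    · rw [zero_add, Int.mul_ediv_cancel' (hdiv n (by omega))]
  have key : ∀ n, 1 ≤ n → ∃ c : ℤ, coeff n F =
      (if 4 ∣ n then coeff (n / 4) F else 0) + 2 ^ (t + 3) * (w * coeff n mu + 4 * c) := by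
    intro n hn
    have h1 := congrArg (coeff n) hb
    have h2 : (1 - 2 ^ (t + 3) * ((w : ℤ⟦X⟧) * mu) + 2 ^ (t + 5) * b) * F =
        F - ((2 ^ (t + 3) : ℤ) : ℤ⟦X⟧) * (((w : ℤ) : ℤ⟦X⟧) * mu) +
        ((2 ^ (t + 3) : ℤ) : ℤ⟦X⟧) * (((4 : ℤ) : ℤ⟦X⟧) *
          (b * F - 2 ^ (t + 1) * (w * mu * G))) := by
      nth_rewrite 1 [hG]
      nth_rewrite 1 [hG]
      push_cast
      rw [hG]
      push_cast
      ring
    rw [h2, map_add, map_sub, coeff_int_mul, coeff_int_mul, coeff_int_mul, coeff_int_mul,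
      coeff_expand] at h1
    refine ⟨- coeff n (b * F - 2 ^ (t + 1) * ((w : ℤ⟦X⟧) * mu * G)), ?_⟩
    rw [← h1]
    ring
  induction n using Nat.strong_induction_on with
  | _ n ih =>
    obtain ⟨c, hc⟩ := key n hn
    have hmu : coeff n mu = if n % 2 = 1 then 2 else if n % 4 = 2 then ((n / 2 : ℕ) : ℤ) else 0 := by
      simp [mu]
    have hwz : (w : ℤ) % 2 = 1 := by omega
    obtain ⟨w', hw'⟩ : ∃ w' : ℤ, (w : ℤ) = 2 * w' + 1 := ⟨(w : ℤ) / 2, by omega⟩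
    by_cases h4 : 4 ∣ n
    · obtain ⟨j, rfl⟩ := h4
      obtain ⟨h, hh, hp⟩ := ih j (by omega) (by omega)
      rw [if_pos (Dvd.intro _ rfl), Nat.mul_div_cancel_left _ (by norm_num), hh] at hc
      rw [if_neg (by omega), if_neg (by omega)] at hmu
      rw [hmu, mul_zero, zero_add, ← mul_add] at hc
      refine ⟨_, hc, ?_⟩
      rw [padicValNat_two_four_mul j (by omega)]
      omega
    · rw [if_neg h4, zero_add] at hc
      refine ⟨_, hc, ?_⟩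
      rw [hmu]
      by_cases h2 : n % 2 = 1
      · left
        rw [if_pos h2, padicValNat.eq_zero_of_not_dvd (by omega)]
        refine ⟨rfl, ?_⟩
        rw [hw']
        omega
      · right
        have h3 : n % 4 = 2 := by omega
        rw [if_neg h2, if_pos h3]
        obtain ⟨j, rfl⟩ : ∃ j, n = 2 * (2 * j + 1) := ⟨n / 4, by omega⟩
        rw [padicValNat.mul (by norm_num) (by omega), padicValNat_self,
          padicValNat.eq_zero_of_not_dvd (n := 2 * j + 1) (by omega),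
          Nat.mul_div_cancel_left _ (by norm_num)]
        refine ⟨rfl, ?_⟩
        rw [hw']
        push_cast
        have : (2 * w' + 1) * (2 * (j : ℤ) + 1) + 4 * c = 2 * (2 * w' * j + w' + j + 2 * c) + 1 := by
          ring
        rw [this]
        omega

/-- The `2`-adic valuation of `S 4 (4 * 2^t * w) n`, `w` odd, `n ≥ 1`. -/
theorem emult_S4 (t w : ℕ) (hw : w % 2 = 1) (n : ℕ) (hn : 1 ≤ n) :
    emultiplicity (2 : ℤ) (S 4 (4 * 2 ^ t * w) n) =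
      ((t + 3 + padicValNat 2 (2 * n) % 2 : ℕ) : ℕ∞) := by
  obtain ⟨h, hh, hp⟩ := coeff_H4 t w hw n hn
  rw [padicValNat.mul (by norm_num) (by omega), padicValNat_self]
  rw [emultiplicity_eq_coe, hh]
  rcases hp with ⟨h1, h2⟩ | ⟨h1, h2⟩
  · rw [show (1 + padicValNat 2 n) % 2 = 1 by omega]
    obtain ⟨c, rfl⟩ : ∃ c, h = 2 * (2 * c + 1) := ⟨h / 4, by omega⟩
    refine ⟨⟨2 * c + 1, by ring⟩, ?_⟩
    rintro ⟨d, hd⟩
    have h3 : (2 : ℤ) ^ (t + 4) * (2 * c + 1) = 2 ^ (t + 4) * (2 * d) := by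
      rw [show (2 : ℤ) ^ (t + 4) * (2 * c + 1) = 2 ^ (t + 3) * (2 * (2 * c + 1)) by ring, hd]
      ring
    have h4 := mul_left_cancel₀ (pow_ne_zero _ two_ne_zero) h3
    omega
  · rw [show (1 + padicValNat 2 n) % 2 = 0 by omega, add_zero]
    refine ⟨⟨h, rfl⟩, ?_⟩
    rintro ⟨d, hd⟩
    have h3 : (2 : ℤ) ^ (t + 3) * h = 2 ^ (t + 3) * (2 * d) := by
      rw [hd]; ring
    have h4 := mul_left_cancel₀ (pow_ne_zero _ two_ne_zero) h3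
    omega

end Q279.Col
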