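import Pool.Agent.Q279.Col.TwoEven

set_option autoImplicit false

/-! The case `k = 3`, `m = 8`. -/

namespace Q279.Col.Three

open PowerSeries Q279.Col
open Q279.Col.Two (v v_eq one_sub_X_ne adjoin_induction_pow intCast_mem')

/-- `u = 3 x / (1 - x)^2` -/
noncomputable def u : ℤ⟦X⟧ := 3 * v

/-- the substitution `x ↦ x^3` -/
noncomputable abbrev E : ℤ⟦X⟧ →ₐ[ℤ] ℤ⟦X⟧ := expand 3 (by norm_num)

/-- `∑ a_n x^n ↦ ∑ a_{3n} x^n` -/
noncomputable abbrev U : ℤ⟦X⟧ →ₗ[ℤ] ℤ⟦X⟧ := Uop 3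

theorem U_E_mul (f g : ℤ⟦X⟧) : U (E f * g) = f * U g := Uop_expand_mul _ f g

theorem phi_eq : (1 - X) ^ 3 * (1 + u) = 1 - X ^ 3 := by
  have h := v_eq
  unfold u
  linear_combination 3 * (1 - X) * h

theorem E_v : (1 - X ^ 3) ^ 2 * E v = X ^ 3 := by
  have h := congrArg E v_eq
  simpa using h

theorem u_rel : u ^ 3 = 9 * E u * (1 + u) ^ 2 := by
  have h1 := v_eq
  have h2 := phi_eq
  have h3 := E_v
  refine mul_left_cancel₀ (pow_ne_zero 6 one_sub_X_ne) ?_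
  have h4 : (1 - X : ℤ⟦X⟧) ^ 6 * v ^ 3 = X ^ 3 := by
    rw [show (1 - X : ℤ⟦X⟧) ^ 6 * v ^ 3 = ((1 - X) ^ 2 * v) ^ 3 by ring, h1]
  have h5 : (1 - X : ℤ⟦X⟧) ^ 6 * (1 + u) ^ 2 = (1 - X ^ 3) ^ 2 := by
    rw [show (1 - X : ℤ⟦X⟧) ^ 6 * (1 + u) ^ 2 = ((1 - X) ^ 3 * (1 + u)) ^ 2 by ring, h2]
  have h6 : E u = 3 * E v := by
    unfold u
    rw [map_mul, map_ofNat]
  rw [h6, show (1 - X : ℤ⟦X⟧) ^ 6 * u ^ 3 = 27 * ((1 - X) ^ 6 * v ^ 3) by unfold u; ring, h4,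
    show (1 - X : ℤ⟦X⟧) ^ 6 * (9 * (3 * E v) * (1 + u) ^ 2) =
      27 * (((1 - X) ^ 6 * (1 + u) ^ 2) * E v) by ring, h5, h3]

theorem U_one : U 1 = 1 := Uop_one 3 (by norm_num)

theorem U_int_mul (c : ℤ) (f : ℤ⟦X⟧) : U ((c : ℤ⟦X⟧) * f) = (c : ℤ⟦X⟧) * U f :=
  Uop_intCast_mul 3 c f

theorem U_ofNat (c : ℕ) (f : ℤ⟦X⟧) : U ((c : ℤ⟦X⟧) * f) = (c : ℤ⟦X⟧) * U f := by
  have := U_int_mul (c : ℤ) f
  simpa using this

theorem U_v : U v = 3 * v := by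
  ext n
  rw [show (3 : ℤ⟦X⟧) = C (3 : ℤ) from (map_ofNat _ 3).symm, coeff_C_mul]
  simp [v]

theorem U_u : U u = 3 * u := by
  have := U_ofNat 3 v
  push_cast at this
  unfold u
  rw [this, U_v]

/-- the coefficients of `v^2` -/
theorem v_sq : v ^ 2 = mk fun n => (((n + 1).choose 3 : ℕ) : ℤ) := by
  refine mul_left_cancel₀ (pow_ne_zero 4 one_sub_X_ne) ?_
  have h1 : (1 - X : ℤ⟦X⟧) ^ 4 * v ^ 2 = X ^ 2 := by
    rw [show (1 - X : ℤ⟦X⟧) ^ 4 * v ^ 2 = ((1 - X) ^ 2 * v) ^ 2 by ring, v_eq]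
  rw [h1]
  have h2 : (mk fun n => (((n + 1).choose 3 : ℕ) : ℤ)) = X ^ 2 * (mk 1 : ℤ⟦X⟧) ^ (3 + 1) := by
    rw [mk_one_pow_eq_mk_choose_add]
    ext n
    rw [coeff_X_pow_mul', coeff_mk, coeff_mk]
    split_ifs with h
    · congr 2
      omega
    · interval_cases n <;> rfl
  have h3 : (mk 1 : ℤ⟦X⟧) * (1 - X) = 1 := mk_one_mul_one_sub_eq_one ℤ
  rw [h2, show (1 - X : ℤ⟦X⟧) ^ 4 * (X ^ 2 * (mk 1) ^ (3 + 1)) = X ^ 2 * ((mk 1) * (1 - X)) ^ 4 by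
    ring, h3]
  ring

theorem choose_three (n : ℕ) : (((n + 1).choose 3 : ℕ) : ℤ) * 6 = (n + 1) * n * (n - 1) := by
  rcases n with _ | n
  · norm_num
  · have h : (n + 1 + 1).choose 3 * 6 = (n + 2) * (n + 1) * n := by
      rcases n with _ | n
      · rfl
      · have h3 := Nat.descFactorial_eq_factorial_mul_choose (n + 1 + 1 + 1) 3
        rw [Nat.descFactorial_succ, Nat.descFactorial_succ, Nat.descFactorial_succ,
          Nat.descFactorial_zero] at h3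
        simp only [Nat.factorial] at h3
        have e1 : n + 1 + 1 + 1 - 2 = n + 1 := by omega
        have e2 : n + 1 + 1 + 1 - 1 = n + 2 := by omega
        rw [e1, e2, Nat.sub_zero, mul_one] at h3
        norm_num at h3
        linarith [h3]
    have h' := congrArg (fun z : ℕ => (z : ℤ)) h
    push_cast at h' ⊢
    linarith

theorem U_v_sq : U (v ^ 2) = 27 * v ^ 2 + 4 * v := by
  ext n
  rw [show (27 : ℤ⟦X⟧) = C (27 : ℤ) from (map_ofNat _ 27).symm,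
    show (4 : ℤ⟦X⟧) = C (4 : ℤ) from (map_ofNat _ 4).symm, map_add, coeff_C_mul, coeff_C_mul,
    coeff_Uop, v_sq]
  simp only [coeff_mk, v]
  have h1 := choose_three (3 * n)
  have h2 := choose_three n
  push_cast at h1 h2 ⊢
  linarith

theorem U_u_sq : U (u ^ 2) = 27 * u ^ 2 + 12 * u := by
  have := U_ofNat 9 (v ^ 2)
  push_cast at this
  unfold u
  rw [mul_pow, show (3 : ℤ⟦X⟧) ^ 2 = 9 by norm_num, this, U_v_sq]
  ring

theorem U_u_cube_mul (g : ℤ⟦X⟧) : U (u ^ 3 * g) = 9 * u * U ((1 + u) ^ 2 * g) := by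
  have := U_ofNat 9 ((1 + u) ^ 2 * g)
  push_cast at this
  rw [show u ^ 3 * g = E u * (9 * ((1 + u) ^ 2 * g)) by rw [u_rel]; ring, U_E_mul, this]
  ring

/-- the functional equation -/
theorem F_feq (m : ℕ) : H 3 m = (1 + u) ^ m * E (H 3 m) := by
  have h := H_feq (k := 3) (by norm_num) m
  refine mul_left_cancel₀ (pow_ne_zero (3 * m) one_sub_X_ne) ?_
  rw [h, ← phi_eq, mul_pow, ← pow_mul]
  ring

theorem U_F_mul (m : ℕ) (g : ℤ⟦X⟧) : U (H 3 m * g) = H 3 m * U ((1 + u) ^ m * g) := by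
  nth_rewrite 1 [F_feq m]
  rw [show (1 + u) ^ m * E (H 3 m) * g = E (H 3 m) * ((1 + u) ^ m * g) by ring, U_E_mul]

/-- the subring `ℤ[u]` -/
noncomputable abbrev Ru : Subalgebra ℤ ℤ⟦X⟧ := Algebra.adjoin ℤ {u}

theorem u_mem : u ∈ Ru := Algebra.subset_adjoin rfl

theorem U_mem_Ru {f : ℤ⟦X⟧} (hf : f ∈ Ru) : U f ∈ Ru := by
  refine adjoin_induction_pow (fun f => U f ∈ Ru) ?_ ?_ ?_ hf
  · intro f g hf hg; rw [map_add]; exact add_mem hf hg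
  · intro c f hf; rw [U_int_mul]; exact mul_mem (intCast_mem' _ c) hf
  · intro n
    induction n using Nat.strong_induction_on with
    | _ n ih =>
      rcases n with _ | _ | _ | n
      · rw [pow_zero, U_one]; exact one_mem _
      · rw [zero_add, pow_one, U_u]; exact mul_mem (ofNat_mem _ 3) u_mem
      · rw [zero_add, U_u_sq]
        exact add_mem (mul_mem (ofNat_mem _ 27) (pow_mem u_mem 2)) (mul_mem (ofNat_mem _ 12) u_mem)
      · have h2 := U_ofNat 2 (u ^ (n + 1))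
        push_cast at h2
        rw [show u ^ (n + 1 + 1 + 1) = u ^ 3 * u ^ n by ring, U_u_cube_mul,
          show (1 + u) ^ 2 * u ^ n = u ^ n + 2 * u ^ (n + 1) + u ^ (n + 2) by ring, map_add,
          map_add, h2]
        exact mul_mem (mul_mem (ofNat_mem _ 9) u_mem) (add_mem (add_mem (ih n (by omega))
          (mul_mem (ofNat_mem _ 2) (ih (n + 1) (by omega)))) (ih (n + 2) (by omega)))

/-- `U (u ℤ[u]) ⊆ 3 u ℤ[u]` -/
theorem U_u_mul {g : ℤ⟦X⟧} (hg : g ∈ Ru) : ∃ h ∈ Ru, U (u * g) = 3 * (u * h) := by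
  refine adjoin_induction_pow (fun g => ∃ h ∈ Ru, U (u * g) = 3 * (u * h)) ?_ ?_ ?_ hg
  · rintro f g ⟨h1, hm1, e1⟩ ⟨h2, hm2, e2⟩
    exact ⟨h1 + h2, add_mem hm1 hm2, by rw [mul_add, map_add, e1, e2]; ring⟩
  · rintro c f ⟨h1, hm1, e1⟩
    exact ⟨c * h1, mul_mem (intCast_mem' _ c) hm1, by
      rw [show u * ((c : ℤ⟦X⟧) * f) = (c : ℤ⟦X⟧) * (u * f) by ring, U_int_mul, e1]; ring⟩
  · intro n
    rcases n with _ | _ | n
    · exact ⟨1, one_mem _, by rw [pow_zero, mul_one, U_u]⟩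
    · exact ⟨9 * u + 4, add_mem (mul_mem (ofNat_mem _ 9) u_mem) (ofNat_mem _ 4), by
        rw [zero_add, pow_one, ← pow_two, U_u_sq]; ring⟩
    · refine ⟨3 * U ((1 + u) ^ 2 * u ^ n), mul_mem (ofNat_mem _ 3) (U_mem_Ru
        (mul_mem (pow_mem (add_mem (one_mem _) u_mem) 2) (pow_mem u_mem n))), ?_⟩
      rw [show u * u ^ (n + 1 + 1) = u ^ 3 * u ^ n by ring, U_u_cube_mul]
      ring

/-- recurrence for `U ((1+u)^j)` -/
theorem a_rec (j : ℕ) : U ((1 + u) ^ (j + 3)) =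
    (3 + 9 * u) * U ((1 + u) ^ (j + 2)) - 3 * U ((1 + u) ^ (j + 1)) + U ((1 + u) ^ j) := by
  have h2 := U_ofNat 9 ((1 + u) ^ (j + 2))
  have h3 := U_ofNat 3 ((1 + u) ^ (j + 2) )
  have h4 := U_ofNat 3 ((1 + u) ^ (j + 1))
  push_cast at h2 h3 h4
  have h1 : (1 + u) ^ (j + 3) = E u * (9 * (1 + u) ^ (j + 2)) + (3 * (1 + u) ^ (j + 2)
      - 3 * (1 + u) ^ (j + 1) + (1 + u) ^ j) := by
    linear_combination (1 + u) ^ j * u_rel
  rw [h1, map_add, map_add, map_sub, U_E_mul, h2, h3, h4]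
  ring

theorem a_eight : U ((1 + u) ^ 8) = 1 + 27 * (u * (32 + 1848 * u + 30888 * u ^ 2 + 221130 * u ^ 3
    + 793152 * u ^ 4 + 1495908 * u ^ 5 + 1417176 * u ^ 6 + 531441 * u ^ 7)) := by
  have a0 : U ((1 + u) ^ 0) = 1 := by rw [pow_zero, U_one]
  have a1 : U ((1 + u) ^ 1) = 1 + 3 * u := by rw [pow_one, map_add, U_one, U_u]
  have a2 : U ((1 + u) ^ 2) = 1 + 18 * u + 27 * u ^ 2 := by
    have h2 := U_ofNat 2 u
    push_cast at h2
    rw [show (1 + u) ^ 2 = 1 + 2 * u + u ^ 2 by ring, map_add, map_add, U_one, h2, U_u, U_u_sq]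
    ring
  have a3 := a_rec 0
  have a4 := a_rec 1
  have a5 := a_rec 2
  have a6 := a_rec 3
  have a7 := a_rec 4
  have a8 := a_rec 5
  norm_num only at a3 a4 a5 a6 a7 a8
  rw [a2, a1, a0] at a3
  rw [a3, a2, a1] at a4
  rw [a4, a3, a2] at a5
  rw [a5, a4, a3] at a6
  rw [a6, a5, a4] at a7
  rw [a7, a6, a5] at a8
  rw [a8]
  ring

/-- iteration on `F * (u g)` -/
theorem iterate_u (m r : ℕ) {g : ℤ⟦X⟧} (hg : g ∈ Ru) :
    ∃ h ∈ Ru, (Uop 3)^[r] (H 3 m * (u * g)) = H 3 m * (3 ^ r * (u * h)) := by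
  induction r with
  | zero => exact ⟨g, hg, by simp⟩
  | succ r ih =>
    obtain ⟨h, hh, e⟩ := ih
    obtain ⟨h', hh', e'⟩ := U_u_mul (mul_mem (pow_mem (add_mem (one_mem _) u_mem) m) hh)
    refine ⟨h', hh', ?_⟩
    have h3 := U_ofNat (3 ^ r) (u * ((1 + u) ^ m * h))
    push_cast at h3
    rw [Function.iterate_succ_apply', e]
    change U (H 3 m * (3 ^ r * (u * h))) = _
    rw [U_F_mul, show (1 + u) ^ m * (3 ^ r * (u * h)) = 3 ^ r * (u * ((1 + u) ^ m * h)) by ring,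
      h3, e']
    ring

theorem exists_UU : ∃ g ∈ Ru, U (U (H 3 8)) - H 3 8 = 27 * (H 3 8 * (u * g)) := by
  have hG : U (H 3 8) = H 3 8 * U ((1 + u) ^ 8) := by
    have := U_F_mul 8 1
    rwa [mul_one, mul_one] at this
  set q : ℤ⟦X⟧ := 32 + 1848 * u + 30888 * u ^ 2 + 221130 * u ^ 3
    + 793152 * u ^ 4 + 1495908 * u ^ 5 + 1417176 * u ^ 6 + 531441 * u ^ 7 with hq
  have ha : U ((1 + u) ^ 8) = 1 + 27 * (u * q) := a_eight
  have hqm : q ∈ Ru := by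
    have hp := fun n => pow_mem u_mem n
    refine add_mem (add_mem (add_mem (add_mem (add_mem (add_mem (add_mem (ofNat_mem _ 32)
      (mul_mem (ofNat_mem _ 1848) u_mem)) (mul_mem (ofNat_mem _ 30888) (hp 2)))
      (mul_mem (ofNat_mem _ 221130) (hp 3))) (mul_mem (ofNat_mem _ 793152) (hp 4)))
      (mul_mem (ofNat_mem _ 1495908) (hp 5))) (mul_mem (ofNat_mem _ 1417176) (hp 6)))
      (mul_mem (ofNat_mem _ 531441) (hp 7))
  obtain ⟨h, hh, e⟩ := U_u_mul (mul_mem (pow_mem (add_mem (one_mem _) u_mem) 8) hqm)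
  refine ⟨q + 3 * h, add_mem hqm (mul_mem (ofNat_mem _ 3) hh), ?_⟩
  have h27 := U_ofNat 27 (u * ((1 + u) ^ 8 * q))
  push_cast at h27
  rw [hG, U_F_mul, ha, show (1 + u) ^ 8 * (1 + 27 * (u * q)) =
    (1 + u) ^ 8 + 27 * (u * ((1 + u) ^ 8 * q)) by ring, map_add, ha, h27, e]
  ring

theorem iterate_27 (r : ℕ) (f : ℤ⟦X⟧) : (Uop 3)^[r] (27 * f) = 27 * (Uop 3)^[r] f := by
  induction r generalizing f with
  | zero => rfl
  | succ r ih =>
    have h27 := U_ofNat 27 f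
    push_cast at h27
    rw [Function.iterate_succ_apply, Function.iterate_succ_apply, ← ih]
    exact congrArg _ h27

/-- For `p = 3`, `m = 8` and all `n ≥ 1`: `3^{ν₃(n)+4}` divides `d_8(9n) - d_8(n)`. -/
theorem dvd_eight (n : ℕ) : (3 : ℤ) ^ (padicValNat 3 n + 4) ∣ S 3 8 (3 ^ 2 * n) - S 3 8 n := by
  obtain ⟨n', hn'⟩ : ∃ n', n = 3 ^ padicValNat 3 n * n' :=
    ⟨n / 3 ^ padicValNat 3 n, (Nat.mul_div_cancel' pow_padicValNat_dvd).symm⟩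
  set r := padicValNat 3 n with hr
  obtain ⟨g, hg, e⟩ := exists_UU
  obtain ⟨h, _, e2⟩ := iterate_u 8 r hg
  have hc : S 3 8 (3 ^ 2 * n) - S 3 8 n = coeff n' ((Uop 3)^[r] (U (U (H 3 8)) - H 3 8)) := by
    rw [coeff_iterate_Uop, ← hn', map_sub, coeff_Uop, coeff_Uop, S, S,
      show 3 * (3 * n) = 3 ^ 2 * n by ring]
  rw [hc, e, iterate_27, e2]
  have e3 : 27 * (H 3 8 * (3 ^ r * (u * h))) = ((3 ^ (r + 4) : ℤ) : ℤ⟦X⟧) * (H 3 8 * (v * h)) := by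
    unfold u
    push_cast
    ring
  rw [e3, Two.coeff_int_mul']
  exact Dvd.intro _ rfl

end Q279.Col.Three
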