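import Pool.Agent.Q279.Col.Uop

set_option autoImplicit false

/-! The case `k = 2`. -/

namespace Q279.Col.Two

open PowerSeries Q279.Col

/-- `w = (1 + x) / (1 - x)` -/
noncomputable def w : ℤ⟦X⟧ := mk fun n => if n = 0 then 1 else 2

/-- `v = x / (1 - x)^2` -/
noncomputable def v : ℤ⟦X⟧ := mk fun n => (n : ℤ)

/-- `V = w^2 - 1 = 4 x / (1 - x)^2` -/
noncomputable def V : ℤ⟦X⟧ := w ^ 2 - 1

/-- the substitution `x ↦ x^2` -/
noncomputable abbrev E : ℤ⟦X⟧ →ₐ[ℤ] ℤ⟦X⟧ := expand 2 (by norm_num)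

/-- `∑ a_n x^n ↦ ∑ a_{2n} x^n` -/
noncomputable abbrev U : ℤ⟦X⟧ →ₗ[ℤ] ℤ⟦X⟧ := Uop 2

theorem U_E_mul (f g : ℤ⟦X⟧) : U (E f * g) = f * U g := Uop_expand_mul _ f g

theorem w_eq : (1 - X) * w = 1 + X := by
  ext n
  rw [sub_mul, one_mul, map_sub, map_add, coeff_one, coeff_X]
  rcases n with _ | n
  · simp [w]
  · rw [coeff_succ_X_mul]
    rcases n with _ | n <;> simp [w]

theorem v_eq : (1 - X) ^ 2 * v = X := by
  rw [show (1 - X : ℤ⟦X⟧) ^ 2 * v = v - X * (2 * v - X * v) by ring]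
  ext n
  rw [map_sub, coeff_X]
  rcases n with _ | n
  · simp [v]
  · rw [coeff_succ_X_mul, map_sub, show (2 : ℤ⟦X⟧) = C (2 : ℤ) from (map_ofNat _ 2).symm,
      coeff_C_mul]
    rcases n with _ | n
    · simp [v]
    · rw [coeff_succ_X_mul]
      simp only [v, coeff_mk]
      rw [if_neg (by omega)]
      push_cast
      ring

theorem one_sub_X_ne : (1 - X : ℤ⟦X⟧) ≠ 0 := by
  intro h
  have := congrArg (constantCoeff (R := ℤ)) h
  simp at this

theorem V_eq : V = 4 * v := by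
  have h1 := w_eq
  have h2 := v_eq
  refine mul_left_cancel₀ (pow_ne_zero 2 one_sub_X_ne) ?_
  unfold V
  linear_combination ((1 - X) * w + (1 + X)) * h1 - 4 * h2

theorem E_w : (1 - X ^ 2) * E w = 1 + X ^ 2 := by
  have h := congrArg E w_eq
  simpa using h

theorem w_rel : w ^ 2 + 1 = 2 * E w * w := by
  have h1 := w_eq
  have h2 := E_w
  refine mul_left_cancel₀ (pow_ne_zero 2 one_sub_X_ne) ?_
  linear_combination ((1 - X) * w + (1 + X) - 2 * (1 - X) * E w) * h1 - 2 * h2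

theorem V_rel : V ^ 2 = 4 * E V * (1 + V) := by
  have h := w_rel
  unfold V
  rw [map_sub, map_pow, map_one]
  linear_combination (w ^ 2 + 1 + 2 * E w * w) * h

theorem U_one : U 1 = 1 := Uop_one 2 (by norm_num)

theorem U_w : U w = w := by
  ext n
  simp only [coeff_Uop, w, coeff_mk]
  split_ifs <;> omega

theorem U_int_mul (c : ℤ) (f : ℤ⟦X⟧) : U ((c : ℤ⟦X⟧) * f) = (c : ℤ⟦X⟧) * U f :=
  Uop_intCast_mul 2 c f

theorem U_ofNat2 (f : ℤ⟦X⟧) : U (2 * f) = 2 * U f := by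
  have := U_int_mul 2 f
  simpa using this

theorem U_ofNat4 (f : ℤ⟦X⟧) : U (4 * f) = 4 * U f := by
  have := U_int_mul 4 f
  simpa using this

/-- three-term recurrence -/
theorem U_rec (g : ℤ⟦X⟧) : U (w ^ 2 * g) = 2 * w * U (w * g) - U g := by
  have h : w ^ 2 * g = E w * (2 * (w * g)) - g := by
    have := w_rel
    linear_combination g * this
  rw [h, map_sub, U_E_mul, U_ofNat2]
  ring

theorem U_V : U V = 2 * V := by
  have h := U_rec 1
  rw [mul_one, mul_one, U_w, U_one] at h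
  unfold V
  rw [map_sub, U_one, h]
  ring

theorem U_wV : U (w * V) = 4 * w * V := by
  have h := U_rec w
  have h2 : U (w * w) = 2 * w * w - 1 := by
    have h := U_rec 1
    rw [mul_one, mul_one, U_w, U_one, pow_two] at h
    exact h
  rw [h2, U_w] at h
  have h3 : w * V = w ^ 2 * w - w := by unfold V; ring
  rw [h3, map_sub, h, U_w]
  unfold V
  ring

/-- `V^2` under `U` -/
theorem U_V_sq_mul (g : ℤ⟦X⟧) : U (V ^ 2 * g) = 4 * V * U ((1 + V) * g) := by
  rw [show V ^ 2 * g = E V * (4 * ((1 + V) * g)) by rw [V_rel]; ring, U_E_mul, U_ofNat4]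
  ring

/-- the functional equation -/
theorem F_feq (m : ℕ) : H 2 m = w ^ m * E (H 2 m) := by
  have h := H_feq (k := 2) (by norm_num) m
  have h1 := w_eq
  refine mul_left_cancel₀ (pow_ne_zero (2 * m) one_sub_X_ne) ?_
  rw [h]
  have h2 : (1 - X ^ 2 : ℤ⟦X⟧) ^ m = (1 - X) ^ (2 * m) * w ^ m := by
    rw [pow_mul, ← mul_pow]
    congr 1
    linear_combination (-(1 - X)) * h1
  rw [h2]
  ring

theorem U_F_mul (m : ℕ) (g : ℤ⟦X⟧) : U (H 2 m * g) = H 2 m * U (w ^ m * g) := by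
  nth_rewrite 1 [F_feq m]
  rw [show w ^ m * E (H 2 m) * g = E (H 2 m) * (w ^ m * g) by ring, U_E_mul]

/-- the subring `ℤ[w]` -/
noncomputable abbrev Rw : Subalgebra ℤ ℤ⟦X⟧ := Algebra.adjoin ℤ {w}

/-- the subring `ℤ[V]` -/
noncomputable abbrev RV : Subalgebra ℤ ℤ⟦X⟧ := Algebra.adjoin ℤ {V}

theorem w_mem : w ∈ Rw := Algebra.subset_adjoin rfl
theorem V_mem : V ∈ RV := Algebra.subset_adjoin rfl
theorem V_mem_w : V ∈ Rw := sub_mem (pow_mem w_mem 2) (one_mem _)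

theorem RV_le : RV ≤ Rw := by
  refine Algebra.adjoin_le ?_
  rintro _ rfl
  exact V_mem_w

theorem exists_aeval {a f : ℤ⟦X⟧} (hf : f ∈ Algebra.adjoin ℤ {a}) :
    ∃ p : Polynomial ℤ, f = Polynomial.aeval a p := by
  rw [Algebra.adjoin_singleton_eq_range_aeval] at hf
  obtain ⟨p, hp⟩ := hf
  exact ⟨p, hp.symm⟩

/-- To prove an additive statement on `ℤ[a]` it is enough to treat powers. -/
theorem adjoin_induction_pow {a : ℤ⟦X⟧} (Q : ℤ⟦X⟧ → Prop)
    (hadd : ∀ f g, Q f → Q g → Q (f + g)) (hmul : ∀ (c : ℤ) f, Q f → Q ((c : ℤ⟦X⟧) * f))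
    (hpow : ∀ n, Q (a ^ n)) {f : ℤ⟦X⟧} (hf : f ∈ Algebra.adjoin ℤ {a}) : Q f := by
  obtain ⟨p, rfl⟩ := exists_aeval hf
  induction p using Polynomial.induction_on' with
  | add p q hp hq =>
    rw [map_add]
    exact hadd _ _ (hp (by rw [Algebra.adjoin_singleton_eq_range_aeval]; exact ⟨p, rfl⟩))
      (hq (by rw [Algebra.adjoin_singleton_eq_range_aeval]; exact ⟨q, rfl⟩))
  | monomial n c =>
    rw [Polynomial.aeval_monomial, eq_intCast (algebraMap ℤ ℤ⟦X⟧) c]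
    exact hmul c _ (hpow n)

theorem intCast_mem' (S : Subalgebra ℤ ℤ⟦X⟧) (c : ℤ) : (c : ℤ⟦X⟧) ∈ S := intCast_mem S c

theorem U_mem_Rw {f : ℤ⟦X⟧} (hf : f ∈ Rw) : U f ∈ Rw := by
  refine adjoin_induction_pow (fun f => U f ∈ Rw) ?_ ?_ ?_ hf
  · intro f g hf hg; rw [map_add]; exact add_mem hf hg
  · intro c f hf; rw [U_int_mul]; exact mul_mem (intCast_mem' _ c) hf
  · intro n
    induction n using Nat.strong_induction_on with
    | _ n ih =>
      rcases n with _ | _ | n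
      · rw [pow_zero, U_one]; exact one_mem _
      · rw [zero_add, pow_one, U_w]; exact w_mem
      · rw [show w ^ (n + 1 + 1) = w ^ 2 * w ^ n by ring, U_rec,
          show w * w ^ n = w ^ (n + 1) by ring]
        exact sub_mem (mul_mem (mul_mem (ofNat_mem _ 2) w_mem) (ih (n + 1) (by omega)))
          (ih n (by omega))

theorem U_mem_RV {f : ℤ⟦X⟧} (hf : f ∈ RV) : U f ∈ RV := by
  refine adjoin_induction_pow (fun f => U f ∈ RV) ?_ ?_ ?_ hf
  · intro f g hf hg; rw [map_add]; exact add_mem hf hg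
  · intro c f hf; rw [U_int_mul]; exact mul_mem (intCast_mem' _ c) hf
  · intro n
    induction n using Nat.strong_induction_on with
    | _ n ih =>
      rcases n with _ | _ | n
      · rw [pow_zero, U_one]; exact one_mem _
      · rw [zero_add, pow_one, U_V]; exact mul_mem (ofNat_mem _ 2) V_mem
      · rw [show V ^ (n + 1 + 1) = V ^ 2 * V ^ n by ring, U_V_sq_mul, add_mul, one_mul, map_add,
          show V * V ^ n = V ^ (n + 1) by ring]
        exact mul_mem (mul_mem (ofNat_mem _ 4) V_mem)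
          (add_mem (ih n (by omega)) (ih (n + 1) (by omega)))

/-- `U (V ℤ[w]) ⊆ 2 V ℤ[w]` -/
theorem U_V_mul {g : ℤ⟦X⟧} (hg : g ∈ Rw) : ∃ h ∈ Rw, U (V * g) = 2 * (V * h) := by
  refine adjoin_induction_pow (fun g => ∃ h ∈ Rw, U (V * g) = 2 * (V * h)) ?_ ?_ ?_ hg
  · rintro f g ⟨h1, hm1, e1⟩ ⟨h2, hm2, e2⟩
    exact ⟨h1 + h2, add_mem hm1 hm2, by rw [mul_add, map_add, e1, e2]; ring⟩
  · rintro c f ⟨h1, hm1, e1⟩
    exact ⟨c * h1, mul_mem (intCast_mem' _ c) hm1, by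
      rw [show V * ((c : ℤ⟦X⟧) * f) = (c : ℤ⟦X⟧) * (V * f) by ring, U_int_mul, e1]; ring⟩
  · intro n
    induction n using Nat.strong_induction_on with
    | _ n ih =>
      rcases n with _ | _ | n
      · exact ⟨1, one_mem _, by rw [pow_zero, mul_one, U_V]⟩
      · exact ⟨2 * w, mul_mem (ofNat_mem _ 2) w_mem, by
          rw [zero_add, pow_one, mul_comm V w, U_wV]; ring⟩
      · obtain ⟨h1, hm1, e1⟩ := ih (n + 1) (by omega)
        obtain ⟨h2, hm2, e2⟩ := ih n (by omega)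
        refine ⟨2 * w * h1 - h2, sub_mem (mul_mem (mul_mem (ofNat_mem _ 2) w_mem) hm1) hm2, ?_⟩
        rw [show V * w ^ (n + 1 + 1) = w ^ 2 * (V * w ^ n) by ring, U_rec,
          show w * (V * w ^ n) = V * w ^ (n + 1) by ring, e1, e2]
        ring

end Q279.Col.Two
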