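import Pool.Agent.Q279.Col.Two

set_option autoImplicit false

/-! The case `k = 2`, `m` even: exact valuations. -/

namespace Q279.Col.Two

open PowerSeries Q279.Col

/-- `f = 2^e (a V + V^2 Q(V))` with `a` odd -/
def Good (e : ℕ) (f : ℤ⟦X⟧) : Prop :=
  ∃ a : ℤ, ∃ Q ∈ RV, a % 2 = 1 ∧ f = 2 ^ e * ((a : ℤ⟦X⟧) * V + V ^ 2 * Q)

theorem RV_decomp {f : ℤ⟦X⟧} (hf : f ∈ RV) : ∃ c : ℤ, ∃ g ∈ RV, f = (c : ℤ⟦X⟧) + V * g := by
  refine adjoin_induction_pow (fun f => ∃ c : ℤ, ∃ g ∈ RV, f = (c : ℤ⟦X⟧) + V * g) ?_ ?_ ?_ hf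
  · rintro f g ⟨c, f1, h1, rfl⟩ ⟨d, g1, h2, rfl⟩
    exact ⟨c + d, f1 + g1, add_mem h1 h2, by push_cast; ring⟩
  · rintro b f ⟨c, f1, h1, rfl⟩
    exact ⟨b * c, b * f1, mul_mem (intCast_mem' _ b) h1, by push_cast; ring⟩
  · intro n
    rcases n with _ | n
    · exact ⟨1, 0, zero_mem _, by simp⟩
    · exact ⟨0, V ^ n, pow_mem V_mem n, by rw [pow_succ']; simp⟩

theorem one_add_V_pow (k : ℕ) : ∃ R ∈ RV, (1 + V) ^ k = 1 + V * R := by
  induction k with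
  | zero => exact ⟨0, zero_mem _, by simp⟩
  | succ k ih =>
    obtain ⟨R, hR, h⟩ := ih
    exact ⟨1 + R + V * R, add_mem (add_mem (one_mem _) hR) (mul_mem V_mem hR), by
      rw [pow_succ, h]; ring⟩

theorem w_pow_two_mul (k : ℕ) : w ^ (2 * k) = (1 + V) ^ k := by
  rw [pow_mul]
  congr 1
  unfold V
  ring

theorem one_add_V_mem : (1 + V) ∈ RV := add_mem (one_mem _) V_mem

theorem U_pow2_mul (e : ℕ) (f : ℤ⟦X⟧) : U (2 ^ e * f) = 2 ^ e * U f := by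
  have := U_int_mul (2 ^ e) f
  push_cast at this
  exact this

theorem good_step (k : ℕ) {e : ℕ} {f : ℤ⟦X⟧} (hf : Good e f) :
    Good (e + 1) (U (w ^ (2 * k) * f)) := by
  obtain ⟨a, Q, hQ, ha, rfl⟩ := hf
  obtain ⟨R, hR, hk⟩ := one_add_V_pow k
  rw [w_pow_two_mul]
  have hS : ((a : ℤ⟦X⟧) * R + (1 + V) ^ k * Q) ∈ RV :=
    add_mem (mul_mem (intCast_mem' _ a) hR) (mul_mem (pow_mem one_add_V_mem k) hQ)
  have e1 : (1 + V) ^ k * (2 ^ e * ((a : ℤ⟦X⟧) * V + V ^ 2 * Q)) =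
      2 ^ e * ((a : ℤ⟦X⟧) * V + V ^ 2 * ((a : ℤ⟦X⟧) * R + (1 + V) ^ k * Q)) := by
    linear_combination (2 ^ e * ((a : ℤ⟦X⟧) * V)) * hk
  set S := (a : ℤ⟦X⟧) * R + (1 + V) ^ k * Q with hSdef
  rw [e1, U_pow2_mul, map_add, U_int_mul, U_V, U_V_sq_mul]
  obtain ⟨c, W, hW, hc⟩ := RV_decomp (U_mem_RV (mul_mem one_add_V_mem hS))
  rw [hc]
  refine ⟨a + 2 * c, 2 * W, mul_mem (ofNat_mem _ 2) hW, by omega, ?_⟩
  push_cast
  ring

theorem good_add {e : ℕ} {f g : ℤ⟦X⟧} (hf : Good e f) (hg : Good (e + 1) g) :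
    Good e (f + g) := by
  obtain ⟨a, Q, hQ, ha, rfl⟩ := hf
  obtain ⟨b, R, hR, hb, rfl⟩ := hg
  refine ⟨a + 2 * b, Q + 2 * R, add_mem hQ (mul_mem (ofNat_mem _ 2) hR), by omega, ?_⟩
  push_cast
  ring

theorem w_mod_two : ∃ z : ℤ⟦X⟧, w = 1 + 2 * z := by
  refine ⟨mk fun n => if n = 0 then 0 else 1, ?_⟩
  ext n
  rw [show (2 : ℤ⟦X⟧) = C (2 : ℤ) from (map_ofNat _ 2).symm, map_add, coeff_C_mul, coeff_one]
  simp only [w, coeff_mk]
  split_ifs <;> simp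

theorem pow_mod_two {f z : ℤ⟦X⟧} (h : f = 1 + 2 * z) (m : ℕ) : ∃ y : ℤ⟦X⟧, f ^ m = 1 + 2 * y := by
  induction m with
  | zero => exact ⟨0, by simp⟩
  | succ m ih =>
    obtain ⟨y, hy⟩ := ih
    exact ⟨y + z + 2 * y * z, by rw [pow_succ, hy, h]; ring⟩

/-- `H 2 m` is `1` modulo `2`. -/
theorem F_mod_two (m : ℕ) : ∃ Y : ℤ⟦X⟧, H 2 m = 1 + 2 * Y := by
  obtain ⟨z, hz⟩ := w_mod_two
  obtain ⟨y, hy⟩ := pow_mod_two hz m
  have hf := F_feq m
  set F := H 2 m with hF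
  have hdvd : ∀ n, 1 ≤ n → (2 : ℤ) ∣ coeff n F := by
    intro n hn
    induction n using Nat.strong_induction_on with
    | _ n ih =>
      have h1 := congrArg (coeff n) hf
      rw [hy, show (1 + 2 * y) * E F = E F + ((2 : ℤ) : ℤ⟦X⟧) * (y * E F) by push_cast; ring,
        map_add, show (((2 : ℤ) : ℤ⟦X⟧)) = C (2 : ℤ) from (map_intCast (C (R := ℤ)) 2).symm,
        coeff_C_mul, coeff_expand] at h1
      rw [h1]
      refine dvd_add ?_ (Dvd.intro _ rfl)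
      split_ifs with h2
      · obtain ⟨j, rfl⟩ := h2
        rw [Nat.mul_div_cancel_left _ (by norm_num)]
        exact ih j (by omega) (by omega)
      · exact dvd_zero _
  refine ⟨mk fun n => if n = 0 then 0 else coeff n F / 2, ?_⟩
  ext n
  rw [show (2 : ℤ⟦X⟧) = C (2 : ℤ) from (map_ofNat _ 2).symm, map_add, coeff_C_mul, coeff_one,
    coeff_mk]
  split_ifs with h
  · subst h
    rw [mul_zero, add_zero, coeff_zero_eq_constantCoeff_apply, hF, constCoeff_H (by norm_num)]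
  · rw [zero_add, Int.mul_ediv_cancel' (hdvd n (by omega))]

theorem coeff_two_mul (n : ℕ) (f : ℤ⟦X⟧) : coeff n (2 * f) = 2 * coeff n f := by
  rw [show (2 : ℤ⟦X⟧) = C (2 : ℤ) from (map_ofNat _ 2).symm, coeff_C_mul]

theorem coeff_int_mul' (c : ℤ) (f : ℤ⟦X⟧) (n : ℕ) :
    coeff n ((c : ℤ⟦X⟧) * f) = c * coeff n f := by
  rw [show (c : ℤ⟦X⟧) = C c from (map_intCast (C (R := ℤ)) c).symm, coeff_C_mul]

theorem coeff_pow2_mul (n e : ℕ) (f : ℤ⟦X⟧) : coeff n (2 ^ e * f) = 2 ^ e * coeff n f := by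
  have := coeff_int_mul' (2 ^ e) f n
  push_cast at this
  exact this

theorem good_coeff {e : ℕ} {f : ℤ⟦X⟧} (hf : Good e f) (m n : ℕ) (hn : n % 2 = 1) :
    ∃ o : ℤ, o % 2 = 1 ∧ coeff n (H 2 m * f) = 2 ^ (e + 2) * o := by
  obtain ⟨a, Q, hQ, ha, rfl⟩ := hf
  obtain ⟨Y, hY⟩ := F_mod_two m
  have e1 : H 2 m * (2 ^ e * ((a : ℤ⟦X⟧) * V + V ^ 2 * Q)) =
      2 ^ (e + 2) * ((a : ℤ⟦X⟧) * v + 2 * (2 * v ^ 2 * Q + Y * ((a : ℤ⟦X⟧) * v + 4 * v ^ 2 * Q))) := by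
    rw [hY, V_eq]; ring
  rw [e1, coeff_pow2_mul, map_add, coeff_int_mul', coeff_two_mul]
  refine ⟨_, ?_, rfl⟩
  simp only [v, coeff_mk]
  have h1 : ((a * (n : ℤ)) % 2) = 1 := by
    rw [Int.mul_emod, ha]; omega
  omega

section Cheb

open Polynomial.Chebyshev

/-- `T_j(y)` -/
noncomputable def t (y : ℤ⟦X⟧) (j : ℕ) : ℤ⟦X⟧ := (T ℤ⟦X⟧ (j : ℤ)).eval y

theorem t_zero (y : ℤ⟦X⟧) : t y 0 = 1 := by simp [t]
theorem t_one (y : ℤ⟦X⟧) : t y 1 = y := by simp [t]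
theorem t_add_two (y : ℤ⟦X⟧) (j : ℕ) : t y (j + 2) = 2 * y * t y (j + 1) - t y j := by
  unfold t
  push_cast
  rw [T_add_two]
  simp

theorem t_two (y : ℤ⟦X⟧) : t y 2 = 2 * y ^ 2 - 1 := by
  rw [show (2 : ℕ) = 0 + 2 by norm_num, t_add_two, zero_add, t_one, t_zero]; ring

theorem t_mul (y : ℤ⟦X⟧) (i j : ℕ) : t y (i * j) = t (t y j) i := by
  unfold t
  push_cast
  rw [T_mul, Polynomial.eval_comp]

theorem U_w_pow (j : ℕ) : U (w ^ j) = t w j := by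
  induction j using Nat.strong_induction_on with
  | _ j ih =>
    rcases j with _ | _ | j
    · rw [pow_zero, U_one, t_zero]
    · rw [zero_add, pow_one, U_w, t_one]
    · rw [show w ^ (j + 1 + 1) = w ^ 2 * w ^ j by ring, U_rec, show w * w ^ j = w ^ (j + 1) by ring,
        ih (j + 1) (by omega), ih j (by omega), show j + 1 + 1 = j + 2 by ring, t_add_two]

theorem t_V_expand (k : ℕ) :
    ∃ Q ∈ RV, t (1 + 2 * V) k = 1 + 2 * ((k : ℤ) : ℤ⟦X⟧) ^ 2 * V + 2 * V ^ 2 * Q := by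
  induction k using Nat.strong_induction_on with
  | _ k ih =>
    rcases k with _ | _ | k
    · exact ⟨0, zero_mem _, by rw [t_zero]; push_cast; ring⟩
    · exact ⟨0, zero_mem _, by rw [zero_add, t_one]; push_cast; ring⟩
    · obtain ⟨Q, hQ, h1⟩ := ih k (by omega)
      obtain ⟨Q', hQ', h2⟩ := ih (k + 1) (by omega)
      refine ⟨4 * ((k : ℤ⟦X⟧) + 1) ^ 2 + 2 * Q' + 4 * V * Q' - Q, ?_, ?_⟩
      · exact sub_mem (add_mem (add_mem (mul_mem (ofNat_mem _ 4)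
          (pow_mem (add_mem (natCast_mem _ k) (one_mem _)) 2)) (mul_mem (ofNat_mem _ 2) hQ'))
          (mul_mem (mul_mem (ofNat_mem _ 4) V_mem) hQ')) hQ
      · rw [show k + 1 + 1 = k + 2 by ring, t_add_two, h1, h2]
        push_cast
        ring

theorem good_t (k : ℕ) (hk : 1 ≤ k) : Good (2 * padicValNat 2 k + 1) (t (1 + 2 * V) k - 1) := by
  induction k using Nat.strong_induction_on with
  | _ k ih =>
    rcases Nat.even_or_odd' k with ⟨j, rfl | rfl⟩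
    · obtain ⟨a, Q, hQ, ha, h⟩ := ih j (by omega) (by omega)
      have h2 : t (1 + 2 * V) (2 * j) = 2 * (t (1 + 2 * V) j) ^ 2 - 1 := by
        rw [t_mul, t_two]
      rw [h2, padicValNat.mul (by norm_num) (by omega), padicValNat_self]
      set e := 2 * padicValNat 2 j with he
      rw [show 2 * (1 + padicValNat 2 j) + 1 = e + 3 by omega]
      refine ⟨a, Q + 2 ^ e * ((a : ℤ⟦X⟧) + V * Q) ^ 2, ?_, ha, ?_⟩
      · exact add_mem hQ (mul_mem (pow_mem (ofNat_mem _ 2) e)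
          (pow_mem (add_mem (intCast_mem' _ a) (mul_mem V_mem hQ)) 2))
      · have h3 : t (1 + 2 * V) j = 1 + 2 ^ (e + 1) * ((a : ℤ⟦X⟧) * V + V ^ 2 * Q) := by
          rw [← h]; ring
        rw [h3]
        ring
    · obtain ⟨Q, hQ, h⟩ := t_V_expand (2 * j + 1)
      rw [padicValNat.eq_zero_of_not_dvd (by omega), h]
      refine ⟨((2 * j + 1 : ℕ) : ℤ) ^ 2, Q, hQ, ?_, ?_⟩
      · push_cast
        rw [show (2 * (j : ℤ) + 1) ^ 2 = 2 * (2 * j * j + 2 * j) + 1 by ring]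
        omega
      · push_cast
        ring

theorem t_w_two_mul (k : ℕ) : t w (2 * k) = t (1 + 2 * V) k := by
  rw [mul_comm, t_mul, t_two]
  congr 1
  unfold V
  ring

end Cheb

/-- iteration on `F * f`, `m` even -/
theorem iterate_good (k r : ℕ) {e : ℕ} {f : ℤ⟦X⟧} (hf : Good e f) :
    ∃ g, Good (e + r) g ∧ (Uop 2)^[r] (H 2 (2 * k) * f) = H 2 (2 * k) * g := by
  induction r with
  | zero => exact ⟨f, hf, rfl⟩
  | succ r ih =>
    obtain ⟨g, hg, h⟩ := ih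
    refine ⟨U (w ^ (2 * k) * g), ?_, ?_⟩
    · have := good_step k hg
      rwa [add_assoc] at this
    · rw [Function.iterate_succ_apply', h]
      exact U_F_mul (2 * k) g

theorem two_pow_odd_split (n : ℕ) (hn : 1 ≤ n) :
    ∃ n', n' % 2 = 1 ∧ n = 2 ^ padicValNat 2 n * n' := by
  obtain ⟨k, m, hm, rfl⟩ := Nat.exists_eq_two_pow_mul_odd (n := n) (by omega)
  have hm' : m % 2 = 1 := Nat.odd_iff.1 hm
  refine ⟨m, hm', ?_⟩
  rw [padicValNat.mul (by positivity) (by omega), padicValNat.prime_pow,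
    padicValNat.eq_zero_of_not_dvd (n := m) (by omega), add_zero]

theorem emult_of_eq {x o : ℤ} {e : ℕ} (ho : o % 2 = 1) (hx : x = 2 ^ e * o) :
    emultiplicity (2 : ℤ) x = (e : ℕ∞) := by
  rw [emultiplicity_eq_coe, hx]
  refine ⟨⟨o, rfl⟩, ?_⟩
  rintro ⟨d, hd⟩
  have h3 : (2 : ℤ) ^ e * o = 2 ^ e * (2 * d) := by rw [hd]; ring
  have h4 := mul_left_cancel₀ (pow_ne_zero _ two_ne_zero) h3
  omega

/-- **Q1**. -/
theorem emult_even (k n : ℕ) (hk : 1 ≤ k) (hn : 1 ≤ n) :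
    emultiplicity (2 : ℤ) (S 2 (2 * k) (4 * n) - S 2 (2 * k) n) =
      ((padicValNat 2 n + 2 * padicValNat 2 k + 3 : ℕ) : ℕ∞) := by
  obtain ⟨n', hn', hn2⟩ := two_pow_odd_split n hn
  set r := padicValNat 2 n with hr
  set F := H 2 (2 * k) with hF
  have hG : U F = F * t (1 + 2 * V) k := by
    have := U_F_mul (2 * k) 1
    rw [mul_one, mul_one, U_w_pow, t_w_two_mul] at this
    exact this
  set G := t (1 + 2 * V) k with hGdef
  have hgood := good_t k hk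
  have hUU : U (U F) - F = F * ((G - 1) + U (w ^ (2 * k) * (G - 1))) := by
    rw [hG, U_F_mul, ← hF]
    have h1 : w ^ (2 * k) * G = w ^ (2 * k) + w ^ (2 * k) * (G - 1) := by ring
    rw [h1, map_add, U_w_pow, t_w_two_mul, ← hGdef]
    ring
  obtain ⟨g, hg, hit⟩ := iterate_good k r (good_add hgood (good_step k hgood))
  rw [← hUU] at hit
  have hc : S 2 (2 * k) (4 * n) - S 2 (2 * k) n = coeff n' ((Uop 2)^[r] (U (U F) - F)) := by
    rw [coeff_iterate_Uop, ← hn2, map_sub, coeff_Uop, coeff_Uop, S, S,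
      show 2 * (2 * n) = 4 * n by ring]
  rw [hit] at hc
  obtain ⟨o, ho, hco⟩ := good_coeff hg (2 * k) n' hn'
  rw [hco] at hc
  rw [emult_of_eq ho hc]
  congr 1
  ring

end Q279.Col.Two
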