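import Pool.Agent.Q279.Col.TwoOdd

set_option autoImplicit false

/-! The case `k = 2`, `m` odd: the final statements. -/

namespace Q279.Col.Two

open PowerSeries Q279.Col

/-- `c_m(4n) - c_m(n)` -/
noncomputable def D (m n : ℕ) : ℤ := S 2 m (4 * n) - S 2 m n

theorem D_coeff (i n : ℕ) (hn : 1 ≤ n) : ∃ n', n' % 2 = 1 ∧ n = 2 ^ padicValNat 2 n * n' ∧
    D (2 * i + 1) n = coeff n' ((Uop 2)^[padicValNat 2 n] (H 2 (2 * i + 1) * K i)) := by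
  obtain ⟨n', hn', h⟩ := two_pow_odd_split n hn
  refine ⟨n', hn', h, ?_⟩
  rw [← D_eq, ← h, D]

/-- `m = 4k+1`: lower bound -/
theorem D_one_ge (k n : ℕ) (hn : 1 ≤ n) : (2 : ℤ) ^ (padicValNat 2 n + 3) ∣ D (4 * k + 1) n := by
  obtain ⟨n', hn', _, h⟩ := D_coeff (2 * k) n hn
  obtain ⟨g, hg, e⟩ := good_V (K_one k)
  rw [show 4 * k + 1 = 2 * (2 * k) + 1 by ring, h, e]
  exact dvd_coeff_V _ _ _ _ (RV_le hg)

/-- `m = 4k+1`: equality for odd `n` -/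
theorem D_one_eq (k n : ℕ) (hn : n % 2 = 1) :
    emultiplicity (2 : ℤ) (D (4 * k + 1) n) = ((padicValNat 2 n + 3 : ℕ) : ℕ∞) := by
  obtain ⟨n', hn', h0, h⟩ := D_coeff (2 * k) n (by omega)
  have hv : padicValNat 2 n = 0 := padicValNat.eq_zero_of_not_dvd (by omega)
  rw [hv, pow_zero, one_mul] at h0
  subst h0
  rw [hv] at h ⊢
  rw [Function.iterate_zero, id] at h
  obtain ⟨o, ho, hc⟩ := good_coeff (K_one k) (2 * (2 * k) + 1) n hn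
  rw [hc] at h
  rw [show 4 * k + 1 = 2 * (2 * k) + 1 by ring]
  exact emult_of_eq ho h

/-- `m = 4k+3`, `k ≡ 3 mod 4`. -/
theorem D_fifteen (k n : ℕ) (hk : k % 4 = 3) (hn : 1 ≤ n) :
    (2 : ℤ) ^ (padicValNat 2 n + 7) ∣ D (4 * k + 3) n := by
  obtain ⟨n', hn', _, h⟩ := D_coeff (2 * k + 1) n hn
  obtain ⟨g, hg, e⟩ := K_fifteen k hk
  rw [show 4 * k + 3 = 2 * (2 * k + 1) + 1 by ring, h, e]
  exact dvd_coeff_V _ _ _ _ (RV_le hg)

/-- `m = 4k+3`, `k ≡ 1 mod 4`: lower bound. -/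
theorem D_seven_ge (k n : ℕ) (hk : k % 4 = 1) (hn : 1 ≤ n) :
    (2 : ℤ) ^ (padicValNat 2 n + 6) ∣ D (4 * k + 3) n := by
  obtain ⟨n', hn', _, h⟩ := D_coeff (2 * k + 1) n hn
  obtain ⟨g, hg, e⟩ := good_V (K_seven k hk)
  rw [show 4 * k + 3 = 2 * (2 * k + 1) + 1 by ring, h, e]
  exact dvd_coeff_V _ _ _ _ (RV_le hg)

/-- `m = 4k+3`, `k ≡ 1 mod 4`: equality for odd `n`. -/
theorem D_seven_eq (k n : ℕ) (hk : k % 4 = 1) (hn : n % 2 = 1) :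
    emultiplicity (2 : ℤ) (D (4 * k + 3) n) = ((padicValNat 2 n + 6 : ℕ) : ℕ∞) := by
  obtain ⟨n', hn', h0, h⟩ := D_coeff (2 * k + 1) n (by omega)
  have hv : padicValNat 2 n = 0 := padicValNat.eq_zero_of_not_dvd (by omega)
  rw [hv, pow_zero, one_mul] at h0
  subst h0
  rw [hv] at h ⊢
  rw [Function.iterate_zero, id] at h
  obtain ⟨o, ho, hc⟩ := good_coeff (K_seven k hk) (2 * (2 * k + 1) + 1) n hn
  rw [hc] at h
  rw [show 4 * k + 3 = 2 * (2 * k + 1) + 1 by ring]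
  exact emult_of_eq ho h

/-- `m = 4k+3`, `k` even: one application of `U`. -/
theorem U_K_three (k : ℕ) (hk : k % 2 = 0) : ∃ g h : ℤ⟦X⟧, g ∈ RV ∧ h ∈ RV ∧
    constantCoeff h % 2 = 1 ∧
    U (H 2 (2 * (2 * k + 1) + 1) * K (2 * k + 1)) =
      H 2 (2 * (2 * k + 1) + 1) * (2 ^ 5 * (V * (w * (2 * g + h)))) := by
  obtain ⟨α, c, Q, hQ, hc, e⟩ := K_three k hk
  set i := 2 * k + 1 with hi
  rw [U_F_mul, e, w_pow_odd]
  have hP := pow_mem one_add_V_mem i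
  obtain ⟨g1, hg1, e1⟩ := U_wV_mul hP
  have hm : (1 + V) ^ i * ((1 + V) * ((c : ℤ⟦X⟧) + V * Q)) ∈ RV :=
    mul_mem hP (mul_mem one_add_V_mem (add_mem (intCast_mem' _ c) (mul_mem V_mem hQ)))
  obtain ⟨h1, hh1, e2⟩ := U_w_mul hm
  refine ⟨(α : ℤ⟦X⟧) * g1, h1, mul_mem (intCast_mem' _ α) hg1, hh1, ?_, ?_⟩
  · have := congrArg (constantCoeff (R := ℤ)) e2
    rw [constCoeff_Uop] at this
    simp [constCoeff_w, constCoeff_V] at this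
    omega
  · have e3 : w * (1 + V) ^ i * (8 * (2 * (α : ℤ⟦X⟧) * V + V ^ 2 * ((c : ℤ⟦X⟧) + V * Q))) =
        2 ^ 3 * (((2 * α : ℤ) : ℤ⟦X⟧) * (w * (V * (1 + V) ^ i)) +
          V ^ 2 * (w * ((1 + V) ^ i * ((c : ℤ⟦X⟧) + V * Q)))) := by
      push_cast; ring
    rw [e3, U_pow2_mul, map_add, U_int_mul, e1, U_V_sq_mul,
      show (1 + V) * (w * ((1 + V) ^ i * ((c : ℤ⟦X⟧) + V * Q))) =
        w * ((1 + V) ^ i * ((1 + V) * ((c : ℤ⟦X⟧) + V * Q))) by ring, e2]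
    push_cast
    ring

/-- `m = 4k+3`, `k` even: lower bound. -/
theorem D_three_ge (k n : ℕ) (hk : k % 2 = 0) (hn : 1 ≤ n) :
    (2 : ℤ) ^ (padicValNat 2 n + 6) ∣ D (4 * k + 3) n := by
  obtain ⟨n', hn', _, h⟩ := D_coeff (2 * k + 1) n hn
  rw [show 4 * k + 3 = 2 * (2 * k + 1) + 1 by ring, h]
  rcases Nat.eq_zero_or_pos (padicValNat 2 n) with h0 | h0
  · rw [h0, Function.iterate_zero, id]
    obtain ⟨α, c, Q, hQ, hc, e⟩ := K_three k hk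
    rw [e, V_eq, show H 2 (2 * (2 * k + 1) + 1) * (8 * (2 * (α : ℤ⟦X⟧) * (4 * v) +
      (4 * v) ^ 2 * ((c : ℤ⟦X⟧) + 4 * v * Q))) = 2 ^ (0 + 6) * (H 2 (2 * (2 * k + 1) + 1) *
      ((α : ℤ⟦X⟧) * v + 2 * v ^ 2 * ((c : ℤ⟦X⟧) + 4 * v * Q))) by ring, coeff_pow2_mul]
    exact Dvd.intro _ rfl
  · obtain ⟨s, hs⟩ : ∃ s, padicValNat 2 n = s + 1 := ⟨padicValNat 2 n - 1, by omega⟩
    obtain ⟨g, h1, hg, hh, _, e⟩ := U_K_three k hk
    rw [hs, Function.iterate_succ_apply]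
    change _ ∣ coeff n' ((Uop 2)^[s] (U (H 2 (2 * (2 * k + 1) + 1) * K (2 * k + 1))))
    rw [e, show s + 1 + 6 = s + 5 + 2 by ring]
    exact dvd_coeff_V _ _ _ _ (mul_mem w_mem (add_mem (mul_mem (ofNat_mem _ 2) (RV_le hg))
      (RV_le hh)))

/-- `m = 4k+3`, `k` even: equality for `n ≡ 2 mod 4`. -/
theorem D_three_eq (k n : ℕ) (hk : k % 2 = 0) (hn : n % 4 = 2) :
    emultiplicity (2 : ℤ) (D (4 * k + 3) n) = ((padicValNat 2 n + 6 : ℕ) : ℕ∞) := by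
  obtain ⟨n', hn', h0, h⟩ := D_coeff (2 * k + 1) n (by omega)
  have hv : padicValNat 2 n = 1 := by
    obtain ⟨j, rfl⟩ : ∃ j, n = 2 * (2 * j + 1) := ⟨n / 4, by omega⟩
    rw [padicValNat.mul (by norm_num) (by omega), padicValNat_self,
      padicValNat.eq_zero_of_not_dvd (n := 2 * j + 1) (by omega)]
  rw [show 4 * k + 3 = 2 * (2 * k + 1) + 1 by ring]
  rw [hv] at h ⊢
  rw [Function.iterate_one] at h
  obtain ⟨g, h1, hg, hh, hodd, e⟩ := U_K_three k hk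
  rw [h]
  change emultiplicity 2 (coeff n' (U (H 2 (2 * (2 * k + 1) + 1) * K (2 * k + 1)))) = _
  rw [e, V_eq]
  obtain ⟨Y, hY⟩ := F_mod_two (2 * (2 * k + 1) + 1)
  obtain ⟨z, hz⟩ := w_mod_two
  obtain ⟨c, h2, hh2, rfl⟩ := RV_decomp hh
  have hc : c % 2 = 1 := by
    simpa [constCoeff_V] using hodd
  have e1 : H 2 (2 * (2 * k + 1) + 1) * (2 ^ 5 * (4 * v * (w * (2 * g + ((c : ℤ⟦X⟧) + V * h2))))) =
      2 ^ 7 * ((c : ℤ⟦X⟧) * v + 2 * (v * (w * g + 2 * v * w * h2 + z * c) +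
        Y * (v * (w * (2 * g + ((c : ℤ⟦X⟧) + V * h2)))))) := by
    rw [hY, V_eq]
    nth_rewrite 1 [hz]
    rw [hz]
    ring
  rw [e1, coeff_pow2_mul, map_add, coeff_int_mul', coeff_two_mul]
  refine emult_of_eq (e := 7) ?_ rfl
  simp only [v, coeff_mk]
  have h1 : ((c * (n' : ℤ)) % 2) = 1 := by
    rw [Int.mul_emod, hc]; omega
  omega

theorem infinite_mod (a b : ℕ) (ha : 0 < a) : {n : ℕ | n % a = b % a}.Infinite := by
  have h : Set.range (fun t : ℕ => b % a + a * t) ⊆ {n : ℕ | n % a = b % a} := by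
    rintro _ ⟨t, rfl⟩
    simp
  refine Set.Infinite.mono h (Set.infinite_range_of_injective ?_)
  intro s t hst
  simp only [add_right_inj] at hst
  exact Nat.eq_of_mul_eq_mul_left ha hst

end Q279.Col.Two
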