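import Pool.Agent.Q279.Col.Basic

set_option autoImplicit false

/-! The operator `∑ a_n x^n ↦ ∑ a_{kn} x^n`. -/

namespace Q279.Col

open PowerSeries

/-- `∑ a_n x^n ↦ ∑ a_{kn} x^n` -/
noncomputable def Uop (k : ℕ) : ℤ⟦X⟧ →ₗ[ℤ] ℤ⟦X⟧ where
  toFun f := mk fun n => coeff (k * n) f
  map_add' f g := by ext n; simp
  map_smul' c f := by
    ext n
    rw [RingHom.id_apply, coeff_mk, map_zsmul, map_zsmul, coeff_mk]

@[simp] theorem coeff_Uop (k n : ℕ) (f : ℤ⟦X⟧) : coeff n (Uop k f) = coeff (k * n) f := by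
  simp [Uop]

theorem constCoeff_Uop (k : ℕ) (f : ℤ⟦X⟧) : constantCoeff (Uop k f) = constantCoeff f := by
  rw [← coeff_zero_eq_constantCoeff_apply, coeff_Uop, mul_zero, coeff_zero_eq_constantCoeff_apply]

theorem Uop_expand_mul {k : ℕ} (hk : k ≠ 0) (f g : ℤ⟦X⟧) :
    Uop k (expand k hk f * g) = f * Uop k g := by
  ext n
  rw [coeff_Uop, coeff_mul, coeff_mul]
  have hinj : Function.Injective (fun q : ℕ × ℕ => (k * q.1, k * q.2)) := by
    rintro ⟨a, b⟩ ⟨c, d⟩ h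
    simp only [Prod.mk.injEq] at h
    exact Prod.ext (Nat.eq_of_mul_eq_mul_left (Nat.pos_of_ne_zero hk) h.1)
      (Nat.eq_of_mul_eq_mul_left (Nat.pos_of_ne_zero hk) h.2)
  have h1 : ∑ q ∈ Finset.HasAntidiagonal.antidiagonal n, coeff q.1 f * coeff q.2 (Uop k g) =
      ∑ p ∈ (Finset.HasAntidiagonal.antidiagonal n).map ⟨_, hinj⟩, coeff p.1 (expand k hk f) * coeff p.2 g := by
    rw [Finset.sum_map]
    refine Finset.sum_congr rfl fun q _ => ?_
    simp [coeff_expand_mul]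
  rw [h1]
  symm
  refine Finset.sum_subset ?_ ?_
  · intro p hp
    simp only [Finset.mem_map, Finset.HasAntidiagonal.mem_antidiagonal, Function.Embedding.coeFn_mk] at hp ⊢
    obtain ⟨q, hq, rfl⟩ := hp
    simp only
    rw [← mul_add, hq]
  · intro p hp hp2
    rw [coeff_expand, if_neg, zero_mul]
    rintro ⟨a, ha⟩
    apply hp2
    simp only [Finset.mem_map, Finset.HasAntidiagonal.mem_antidiagonal, Function.Embedding.coeFn_mk] at hp ⊢
    have h2 : k ∣ p.2 := by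
      have h3 : k ∣ p.1 + p.2 := hp ▸ Dvd.intro _ rfl
      rw [ha] at h3
      exact (Nat.dvd_add_right (Dvd.intro _ rfl)).1 h3
    obtain ⟨b, hb⟩ := h2
    refine ⟨(a, b), ?_, Prod.ext ha.symm hb.symm⟩
    rw [ha, hb, ← mul_add] at hp
    exact Nat.eq_of_mul_eq_mul_left (Nat.pos_of_ne_zero hk) hp

theorem Uop_one (k : ℕ) (hk : k ≠ 0) : Uop k 1 = 1 := by
  ext n
  rw [coeff_Uop, coeff_one, coeff_one]
  simp [hk]

theorem Uop_intCast_mul (k : ℕ) (c : ℤ) (f : ℤ⟦X⟧) :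
    Uop k ((c : ℤ⟦X⟧) * f) = (c : ℤ⟦X⟧) * Uop k f := by
  rw [← zsmul_eq_mul, ← zsmul_eq_mul, map_zsmul]

theorem coeff_iterate_Uop (k r n : ℕ) (f : ℤ⟦X⟧) :
    coeff n ((Uop k)^[r] f) = coeff (k ^ r * n) f := by
  induction r generalizing n with
  | zero => simp
  | succ r ih =>
    rw [Function.iterate_succ_apply', coeff_Uop, ih]
    congr 2
    ring

end Q279.Col
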