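import Pool.Agent.Q279.Col.TwoEven

set_option autoImplicit false

/-! The binomial coefficients `C(pj+p-1, p-1)` modulo `p^4` for a Wolstenholme prime `p`, and
the resulting congruences for the case `m = 1`. -/

namespace Q279.Col.Wol

open Polynomial in
/-- `f(y) = ∏_{i=1}^{N} (y + i)` as a polynomial -/
noncomputable def F (N : ℕ) : Polynomial ℤ := ∏ i ∈ Finset.range N, (X + C ((i : ℤ) + 1))

theorem eval_F (N : ℕ) (y : ℤ) : (F N).eval y = ∏ i ∈ Finset.range N, (y + ((i : ℤ) + 1)) := by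
  simp [F, Polynomial.eval_prod]

theorem eval_F_neg {N : ℕ} (hN : Even N) (y : ℤ) :
    (F N).eval (-(N + 1 : ℤ) - y) = (F N).eval y := by
  rw [eval_F, eval_F, ← Finset.prod_range_reflect]
  have h : ∀ i ∈ Finset.range N, (-(N + 1 : ℤ) - y + (((N - 1 - i : ℕ) : ℤ) + 1)) =
      (-1) * (y + ((i : ℤ) + 1)) := by
    intro i hi
    have hi' : i < N := Finset.mem_range.1 hi
    have h1 : ((N - 1 - i : ℕ) : ℤ) = N - 1 - i := by omega
    rw [h1]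
    ring
  rw [Finset.prod_congr rfl h, Finset.prod_mul_distrib]
  simp [hN.neg_one_pow]

theorem eval_F_natCast (N n : ℕ) :
    (F N).eval (n : ℤ) = ((N.factorial * (n + N).choose N : ℕ) : ℤ) := by
  rw [eval_F, ← Nat.ascFactorial_eq_factorial_mul_choose, Nat.ascFactorial_eq_prod_range]
  push_cast
  exact Finset.prod_congr rfl fun i _ => by ring

/-- four Taylor coefficients -/
theorem taylor4 (f : Polynomial ℤ) : ∃ c1 c2 c3 : ℤ, ∀ y : ℤ, ∃ g : ℤ,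
    f.eval y = f.eval 0 + c1 * y + c2 * y ^ 2 + c3 * y ^ 3 + y ^ 4 * g := by
  refine ⟨f.divX.eval 0, f.divX.divX.eval 0, f.divX.divX.divX.eval 0, fun y =>
    ⟨f.divX.divX.divX.divX.eval y, ?_⟩⟩
  have h : ∀ g : Polynomial ℤ, g.eval y = g.divX.eval y * y + g.eval 0 := by
    intro g
    have := congrArg (fun q : Polynomial ℤ => q.eval y) (Polynomial.divX_mul_X_add g).symm
    simpa [Polynomial.coeff_zero_eq_eval_zero] using this
  have h0 := h f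
  have h1 := h f.divX
  have h2 := h f.divX.divX
  have h3 := h f.divX.divX.divX
  rw [h0, h1, h2, h3]
  ring

theorem eval_F_mul {N p : ℕ} (hp : p.Prime) (hp5 : 5 ≤ p) (hN : N + 1 = p)
    (h : (p : ℤ) ^ 4 ∣ (F N).eval (p : ℤ) - (F N).eval 0) (j : ℤ) :
    (p : ℤ) ^ 4 ∣ (F N).eval (p * j) - (F N).eval 0 := by
  have hodd : Odd p := hp.odd_of_ne_two (by omega)
  have hNe : Even N := by
    rw [← hN] at hodd
    rcases Nat.even_or_odd N with h | h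
    · exact h
    · exact absurd hodd (Nat.not_odd_iff_even.2 h.add_one)
  have hpz : Prime (p : ℤ) := Nat.prime_iff_prime_int.1 hp
  have hNp : (N + 1 : ℤ) = p := by exact_mod_cast hN
  obtain ⟨c1, c2, c3, hT⟩ := taylor4 (F N)
  have hcop2 : IsCoprime ((p : ℤ) ^ 4) 2 := by
    refine IsCoprime.pow_left ?_
    rw [show (2 : ℤ) = ((2 : ℕ) : ℤ) from rfl, Nat.isCoprime_iff_coprime]
    exact (Nat.coprime_primes hp Nat.prime_two).2 (by omega)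
  have hcop3 : IsCoprime ((p : ℤ) ^ 4) 3 := by
    refine IsCoprime.pow_left ?_
    rw [show (3 : ℤ) = ((3 : ℕ) : ℤ) from rfl, Nat.isCoprime_iff_coprime]
    exact (Nat.coprime_primes hp Nat.prime_three).2 (by omega)
  -- values at -p, p, -2p
  obtain ⟨g1, e1⟩ := hT p
  obtain ⟨g2, e2⟩ := hT (-(p : ℤ))
  obtain ⟨g3, e3⟩ := hT (-(2 * p : ℤ))
  have s1 := eval_F_neg hNe 0
  have s2 := eval_F_neg hNe p
  rw [hNp, sub_zero] at s1
  rw [hNp, show -(p : ℤ) - p = -(2 * p) by ring] at s2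
  have d1 : (p : ℤ) ^ 4 ∣ c1 * p + c2 * p ^ 2 + c3 * p ^ 3 := by
    have : c1 * p + c2 * p ^ 2 + c3 * p ^ 3 =
      ((F N).eval (p : ℤ) - (F N).eval 0) - p ^ 4 * g1 := by rw [e1]; ring
    rw [this]
    exact dvd_sub h (Dvd.intro _ rfl)
  have d2 : (p : ℤ) ^ 4 ∣ -(c1 * p) + c2 * p ^ 2 - c3 * p ^ 3 := by
    have : -(c1 * p) + c2 * p ^ 2 - c3 * p ^ 3 = p ^ 4 * (-g2) := by
      linear_combination -e2 + s1
    rw [this]
    exact Dvd.intro _ rfl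
  have d3 : (p : ℤ) ^ 4 ∣ -(2 * (c1 * p)) + 4 * (c2 * p ^ 2) - 8 * (c3 * p ^ 3) := by
    have : -(2 * (c1 * p)) + 4 * (c2 * p ^ 2) - 8 * (c3 * p ^ 3) =
      ((F N).eval (p : ℤ) - (F N).eval 0) - p ^ 4 * (16 * g3) := by
      linear_combination -e3 + s2
    rw [this]
    exact dvd_sub h (Dvd.intro _ rfl)
  have k2 : (p : ℤ) ^ 4 ∣ c2 * p ^ 2 := by
    refine hcop2.dvd_of_dvd_mul_left ?_
    have := dvd_add d1 d2
    rwa [show c1 * p + c2 * p ^ 2 + c3 * p ^ 3 + (-(c1 * p) + c2 * p ^ 2 - c3 * p ^ 3) =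
      2 * (c2 * (p : ℤ) ^ 2) by ring] at this
  have k3 : (p : ℤ) ^ 4 ∣ c3 * p ^ 3 := by
    refine hcop2.dvd_of_dvd_mul_left (hcop3.dvd_of_dvd_mul_left ?_)
    have := dvd_sub (dvd_neg.2 d3) (dvd_sub (Dvd.dvd.mul_left d1 2) (Dvd.dvd.mul_left k2 6))
    have e : -(-(2 * (c1 * p)) + 4 * (c2 * p ^ 2) - 8 * (c3 * p ^ 3)) -
      (2 * (c1 * p + c2 * p ^ 2 + c3 * p ^ 3) - 6 * (c2 * (p : ℤ) ^ 2)) =
      3 * (2 * (c3 * (p : ℤ) ^ 3)) := by ring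
    rwa [e] at this
  have k1 : (p : ℤ) ^ 4 ∣ c1 * p := by
    have := dvd_sub (dvd_sub d1 k2) k3
    rwa [show c1 * p + c2 * p ^ 2 + c3 * p ^ 3 - c2 * (p : ℤ) ^ 2 - c3 * p ^ 3 = c1 * p by ring]
      at this
  obtain ⟨g, e⟩ := hT (p * j)
  have : (F N).eval (p * j) - (F N).eval 0 = (c1 * p) * j + (c2 * p ^ 2) * j ^ 2 +
      (c3 * p ^ 3) * j ^ 3 + p ^ 4 * (j ^ 4 * g) := by rw [e]; ring
  rw [this]
  exact dvd_add (dvd_add (dvd_add (Dvd.dvd.mul_right k1 _) (Dvd.dvd.mul_right k2 _))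
    (Dvd.dvd.mul_right k3 _)) (Dvd.intro _ rfl)

/-- all the binomial coefficients `C(pj+p-1,p-1)` are `≡ 1 mod p^4` for a Wolstenholme prime -/
theorem choose_mod {N p : ℕ} (hp : p.Prime) (hp5 : 5 ≤ p) (hN : N + 1 = p)
    (h : (p : ℤ) ^ 4 ∣ (F N).eval (p : ℤ) - (F N).eval 0) (j : ℕ) :
    (p : ℤ) ^ 4 ∣ (((p * j + N).choose N : ℕ) : ℤ) - 1 := by
  have h1 := eval_F_mul hp hp5 hN h j
  have h2 := eval_F_natCast N (p * j)
  have h3 := eval_F_natCast N 0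
  rw [Nat.cast_mul] at h2
  rw [Nat.cast_zero, zero_add, Nat.choose_self, mul_one] at h3
  rw [h2, h3] at h1
  have hc : IsCoprime ((p : ℤ) ^ 4) (N.factorial : ℤ) := by
    refine IsCoprime.pow_left ?_
    rw [Nat.isCoprime_iff_coprime]
    exact (hp.coprime_iff_not_dvd).2 fun hd => by
      have := (hp.dvd_factorial).1 hd
      omega
  refine hc.dvd_of_dvd_mul_left ?_
  rwa [mul_sub, mul_one]

/-- block products modulo `M` -/
def pr (M : ℕ) : ℕ → ℕ → ℕ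
  | 0, a => a % M
  | k + 1, a => (pr M k a * pr M k (a + 2 ^ k)) % M

theorem pr_spec (M k a : ℕ) : pr M k a ≡ a.ascFactorial (2 ^ k) [MOD M] := by
  induction k generalizing a with
  | zero => simpa [pr, Nat.ascFactorial] using Nat.mod_modEq a M
  | succ k ih =>
    rw [pr, pow_succ, mul_two, ← Nat.ascFactorial_mul_ascFactorial]
    exact (Nat.mod_modEq _ _).trans ((ih a).mul (ih _))

/-- product of a block of length `16842 = 2^14 + 2^8 + 2^7 + 2^6 + 2^3 + 2` modulo `M` -/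
def blk (M a : ℕ) : ℕ :=
  (pr M 14 a * pr M 8 (a + 2 ^ 14) * pr M 7 (a + 2 ^ 14 + 2 ^ 8) *
    pr M 6 (a + 2 ^ 14 + 2 ^ 8 + 2 ^ 7) * pr M 3 (a + 2 ^ 14 + 2 ^ 8 + 2 ^ 7 + 2 ^ 6) *
    pr M 1 (a + 2 ^ 14 + 2 ^ 8 + 2 ^ 7 + 2 ^ 6 + 2 ^ 3)) % M

theorem blk_spec (M a : ℕ) : blk M a ≡ a.ascFactorial 16842 [MOD M] := by
  have h : a.ascFactorial 16842 = a.ascFactorial (2 ^ 14) * (a + 2 ^ 14).ascFactorial (2 ^ 8) *
      (a + 2 ^ 14 + 2 ^ 8).ascFactorial (2 ^ 7) *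
      (a + 2 ^ 14 + 2 ^ 8 + 2 ^ 7).ascFactorial (2 ^ 6) *
      (a + 2 ^ 14 + 2 ^ 8 + 2 ^ 7 + 2 ^ 6).ascFactorial (2 ^ 3) *
      (a + 2 ^ 14 + 2 ^ 8 + 2 ^ 7 + 2 ^ 6 + 2 ^ 3).ascFactorial (2 ^ 1) := by
    rw [Nat.ascFactorial_mul_ascFactorial,
      show a + 2 ^ 14 + 2 ^ 8 = a + (2 ^ 14 + 2 ^ 8) by ring, Nat.ascFactorial_mul_ascFactorial,
      show a + (2 ^ 14 + 2 ^ 8) + 2 ^ 7 = a + (2 ^ 14 + 2 ^ 8 + 2 ^ 7) by ring,
      Nat.ascFactorial_mul_ascFactorial,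
      show a + (2 ^ 14 + 2 ^ 8 + 2 ^ 7) + 2 ^ 6 = a + (2 ^ 14 + 2 ^ 8 + 2 ^ 7 + 2 ^ 6) by ring,
      Nat.ascFactorial_mul_ascFactorial,
      show a + (2 ^ 14 + 2 ^ 8 + 2 ^ 7 + 2 ^ 6) + 2 ^ 3 =
        a + (2 ^ 14 + 2 ^ 8 + 2 ^ 7 + 2 ^ 6 + 2 ^ 3) by ring,
      Nat.ascFactorial_mul_ascFactorial]
    norm_num
  rw [h]
  exact (Nat.mod_modEq _ _).trans ((((((pr_spec M 14 a).mul (pr_spec _ _ _)).mul
    (pr_spec _ _ _)).mul (pr_spec _ _ _)).mul (pr_spec _ _ _)).mul (pr_spec _ _ _))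

theorem blk_eq : blk (16843 ^ 4) 16844 = blk (16843 ^ 4) 1 := by decide +kernel

theorem wolstenholme : (16843 : ℤ) ^ 4 ∣ (F 16842).eval (16843 : ℤ) - (F 16842).eval 0 := by
  have h1 := blk_spec (16843 ^ 4) 16844
  have h2 := blk_spec (16843 ^ 4) 1
  rw [blk_eq] at h1
  have h3 := (h2.symm.trans h1)
  have e1 := eval_F_natCast 16842 16843
  have e2 := eval_F_natCast 16842 0
  rw [← Nat.ascFactorial_eq_factorial_mul_choose] at e1 e2
  have h4 := (Nat.modEq_iff_dvd.1 h3)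
  push_cast at h4 e1 e2
  rw [e1, e2]
  exact h4

end Q279.Col.Wol
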