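import Pool.Agent.Q279.Col.Wol

set_option autoImplicit false

/-! The case `m = 1`, `p` a Wolstenholme prime. -/

namespace Q279.Col.Wol

open PowerSeries Q279.Col

/-- For a prime `p ≥ 5` with `C(2p-1,p-1) ≡ 1 mod p^4`, `U_p H ≡ H mod p^4` for `m = 1`. -/
theorem Uop_H {N p : ℕ} (hp : p.Prime) (hp5 : 5 ≤ p) (hN : N + 1 = p)
    (h : (p : ℤ) ^ 4 ∣ (F N).eval (p : ℤ) - (F N).eval 0) :
    ∃ g : ℤ⟦X⟧, Uop p (H p 1) = H p 1 + (((p : ℤ) ^ 4 : ℤ) : ℤ⟦X⟧) * g := by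
  have hp0 : p ≠ 0 := by omega
  have h1 : (mk 1 : ℤ⟦X⟧) * (1 - X) = 1 := mk_one_mul_one_sub_eq_one ℤ
  have hfe := H_feq (k := p) (by omega) 1
  rw [mul_one, pow_one] at hfe
  have hH : H p 1 = expand p hp0 ((1 - X) * H p 1) * (mk 1) ^ p := by
    calc H p 1 = ((mk 1 : ℤ⟦X⟧) * (1 - X)) ^ p * H p 1 := by rw [h1, one_pow, one_mul]
      _ = ((1 - X) ^ p * H p 1) * (mk 1) ^ p := by rw [mul_pow]; ring
      _ = _ := by rw [hfe, map_mul, map_sub, map_one, expand_X]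
  have hb : ∀ j : ℕ, ∃ b : ℤ, (((N + p * j).choose N : ℕ) : ℤ) = 1 + (p : ℤ) ^ 4 * b := by
    intro j
    obtain ⟨b, hb⟩ := choose_mod hp hp5 hN h j
    exact ⟨b, by rw [← hb, add_comm N]; ring⟩
  choose b hb using hb
  have hG : Uop p ((mk 1 : ℤ⟦X⟧) ^ p) = mk 1 + (((p : ℤ) ^ 4 : ℤ) : ℤ⟦X⟧) * mk b := by
    rw [← hN, mk_one_pow_eq_mk_choose_add, hN]
    ext j
    rw [coeff_Uop, coeff_mk, map_add, Two.coeff_int_mul', coeff_mk, coeff_mk, hb j]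
    rfl
  refine ⟨(1 - X) * H p 1 * mk b, ?_⟩
  calc Uop p (H p 1) = Uop p (expand p hp0 ((1 - X) * H p 1) * (mk 1) ^ p) := by rw [← hH]
    _ = (1 - X) * H p 1 * Uop p ((mk 1) ^ p) := by rw [Uop_expand_mul]
    _ = ((mk 1) * (1 - X)) * H p 1 +
        (((p : ℤ) ^ 4 : ℤ) : ℤ⟦X⟧) * ((1 - X) * H p 1 * mk b) := by rw [hG]; ring
    _ = _ := by rw [h1, one_mul]

theorem dvd_sub_of_wol {N p : ℕ} (hp : p.Prime) (hp5 : 5 ≤ p) (hN : N + 1 = p)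
    (h : (p : ℤ) ^ 4 ∣ (F N).eval (p : ℤ) - (F N).eval 0) (n : ℕ) :
    (p : ℤ) ^ 4 ∣ S p 1 (p * n) - S p 1 n := by
  obtain ⟨g, hg⟩ := Uop_H hp hp5 hN h
  have h2 := congrArg (coeff n) hg
  rw [coeff_Uop, map_add, Two.coeff_int_mul'] at h2
  rw [S, S, h2, add_sub_cancel_left]
  exact Dvd.intro _ rfl

theorem prime_16843 : Nat.Prime 16843 := by norm_num

/-- `16843^4 ∣ d_1(16843^2 n) - d_1(n)` for all `n` -/
theorem dvd_16843 (n : ℕ) : (16843 : ℤ) ^ 4 ∣ S 16843 1 (16843 ^ 2 * n) - S 16843 1 n := by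
  have h := dvd_sub_of_wol (N := 16842) prime_16843 (by norm_num) rfl (by
    have := wolstenholme
    exact_mod_cast this)
  have h1 := h n
  have h2 := h (16843 * n)
  have := dvd_add h2 h1
  rw [sub_add_sub_cancel] at this
  rw [show (16843 ^ 2 * n) = 16843 * (16843 * n) by ring]
  exact_mod_cast this

end Q279.Col.Wol
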